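import Mathlib

/-!
# Sums of reciprocals of primes in blocks of powers of four
-/

set_option autoImplicit false

namespace Pool.Agent.Helper27.TripAP

open Finset Real

/-- the primes in `(a, b]` -/
def pri (a b : ℕ) : Finset ℕ := (Ioc a b).filter Nat.Prime

theorem mem_pri {a b p : ℕ} : p ∈ pri a b ↔ (a < p ∧ p ≤ b) ∧ p.Prime := by
  unfold pri
  rw [mem_filter, mem_Ioc]

theorem theta_diff {a b : ℕ} (hab : a ≤ b) :
    ∑ p ∈ pri a b, Real.log p = Chebyshev.theta b - Chebyshev.theta a := by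
  unfold Chebyshev.theta pri
  rw [Nat.floor_natCast, Nat.floor_natCast, eq_sub_iff_add_eq, add_comm, ← sum_union]
  · congr 1
    ext p
    simp only [mem_union, mem_filter, mem_Ioc]
    constructor
    · rintro (⟨h1, h2⟩ | ⟨h1, h2⟩)
      · exact ⟨⟨h1.1, by omega⟩, h2⟩
      · exact ⟨⟨by omega, by omega⟩, h2⟩
    · rintro ⟨h1, h2⟩
      by_cases h : p ≤ a
      · exact Or.inl ⟨⟨h1.1, h⟩, h2⟩
      · exact Or.inr ⟨⟨by omega, h1.2⟩, h2⟩
  · rw [disjoint_left]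
    intro p hp hp'
    simp only [mem_filter, mem_Ioc] at hp hp'
    omega

theorem block_upper {i : ℕ} (hi : 1 ≤ i) : ∑ p ∈ pri (4 ^ i) (4 ^ (i + 1)), 1 / (p : ℝ) ≤ 4 / i := by
  have h4 : (0 : ℝ) < Real.log 4 := Real.log_pos (by norm_num)
  have hi' : (0 : ℝ) < i := by exact_mod_cast hi
  have hp4 : (0 : ℝ) < 4 ^ i := by positivity
  have h1 : ∀ p ∈ pri (4 ^ i) (4 ^ (i + 1)), 1 / (p : ℝ) ≤ Real.log p * (1 / (4 ^ i * (i * Real.log 4))) := by
    intro p hp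
    rw [mem_pri] at hp
    have h2 : (4 : ℝ) ^ i ≤ p := by exact_mod_cast hp.1.1.le
    have h3 : (i : ℝ) * Real.log 4 ≤ Real.log p := by
      rw [← Real.log_pow]
      exact Real.log_le_log hp4 h2
    have hp0 : (0 : ℝ) < p := lt_of_lt_of_le hp4 h2
    have h5 : 0 < (i : ℝ) * Real.log 4 := mul_pos hi' h4
    rw [mul_one_div, div_le_div_iff₀ hp0 (mul_pos hp4 h5), one_mul]
    calc (4 : ℝ) ^ i * (i * Real.log 4) ≤ p * Real.log p := mul_le_mul h2 h3 h5.le hp0.le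
      _ = Real.log p * p := mul_comm _ _
  refine (sum_le_sum h1).trans ?_
  rw [← sum_mul, theta_diff (Nat.pow_le_pow_right (by norm_num) (by omega))]
  have h2 : Chebyshev.theta ((4 ^ (i + 1) : ℕ) : ℝ) - Chebyshev.theta ((4 ^ i : ℕ) : ℝ) ≤
      Real.log 4 * 4 ^ (i + 1) := by
    have h3 := Chebyshev.theta_le_log4_mul_x (x := ((4 ^ (i + 1) : ℕ) : ℝ)) (by positivity)
    have h4 := Chebyshev.theta_nonneg ((4 ^ i : ℕ) : ℝ)
    push_cast at h3 h4 ⊢
    linarith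
  calc (Chebyshev.theta ((4 ^ (i + 1) : ℕ) : ℝ) - Chebyshev.theta ((4 ^ i : ℕ) : ℝ)) *
        (1 / (4 ^ i * (i * Real.log 4)))
      ≤ (Real.log 4 * 4 ^ (i + 1)) * (1 / (4 ^ i * (i * Real.log 4))) :=
        mul_le_mul_of_nonneg_right h2 (by positivity)
    _ = 4 / i := by
        rw [pow_succ]
        field_simp

theorem small_terms : ∃ i₀ : ℕ, ∀ i ≥ i₀,
    Real.log ((4 : ℝ) ^ (i + 1) + 1) + 2 * (2 : ℝ) ^ (i + 1) * ((i + 1) * Real.log 4) ≤
      4 ^ i * Real.log 2 := by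
  have hl2 : (0 : ℝ) < Real.log 2 := Real.log_pos (by norm_num)
  have hl4 : Real.log 4 = 2 * Real.log 2 := by
    rw [show (4 : ℝ) = 2 ^ 2 by norm_num, Real.log_pow]; norm_num
  -- log (4^(i+1)+1) ≤ (i+2) log 4
  refine ⟨8, fun i hi => ?_⟩
  have h1 : Real.log ((4 : ℝ) ^ (i + 1) + 1) ≤ (i + 2) * Real.log 4 := by
    have h2 : ((4 : ℝ) ^ (i + 1) + 1) ≤ 4 ^ (i + 2) := by
      have h3 : (1 : ℝ) ≤ 4 ^ (i + 1) := one_le_pow₀ (by norm_num)
      rw [pow_succ (4 : ℝ) (i + 1)]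
      linarith
    calc Real.log ((4 : ℝ) ^ (i + 1) + 1) ≤ Real.log ((4 : ℝ) ^ (i + 2)) :=
          Real.log_le_log (by positivity) h2
      _ = (i + 2) * Real.log 4 := by rw [Real.log_pow]; push_cast; ring
  rw [hl4] at h1 ⊢
  have h3 : (2 * (i + 2 : ℝ) + 8 * 2 ^ i * (i + 1)) ≤ 4 ^ i := by
    clear h1
    have h5 : (2 : ℝ) * ((i : ℝ) + 2) + 8 * 2 ^ i * (i + 1) ≤ 2 ^ i * 2 ^ i := by
      have key : ∀ n : ℕ, 8 ≤ n → 10 * (n + 1) ≤ 2 ^ n := by
        intro n hn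
        induction n, hn using Nat.le_induction with
        | base => norm_num
        | succ n hn ih => rw [pow_succ]; omega
      have h6 : 10 * ((i : ℝ) + 1) ≤ 2 ^ i := by exact_mod_cast key i hi
      have h7 : (1 : ℝ) ≤ 2 ^ i := one_le_pow₀ (by norm_num)
      have h8 : (0 : ℝ) ≤ i := Nat.cast_nonneg i
      have h9 : (2 : ℝ) ^ i * (10 * ((i : ℝ) + 1)) ≤ 2 ^ i * 2 ^ i :=
        mul_le_mul_of_nonneg_left h6 (by positivity)
      have h11 : (i : ℝ) + 1 ≤ 2 ^ i := by linarith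
      have h10 : 1 * ((i : ℝ) + 1) ≤ 2 ^ i * (i + 1) := mul_le_mul_of_nonneg_right h7 (by linarith)
      have hi8 : (8 : ℝ) ≤ i := by exact_mod_cast hi
      have h12 : (2 : ℝ) * 1 ≤ 2 ^ i * (i + 1) := by
        have : (2 : ℝ) ≤ (i + 1) := by linarith
        nlinarith
      nlinarith
    calc (2 * (i + 2 : ℝ) + 8 * 2 ^ i * (i + 1)) ≤ 2 ^ i * 2 ^ i := h5
      _ = 4 ^ i := by rw [← mul_pow]; norm_num
  have h4 : (2 * (i + 2 : ℝ) + 8 * 2 ^ i * (i + 1)) * Real.log 2 ≤ 4 ^ i * Real.log 2 :=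
    mul_le_mul_of_nonneg_right h3 hl2.le
  have h5 : (2 : ℝ) * 2 ^ (i + 1) * ((i + 1) * (2 * Real.log 2)) =
      8 * 2 ^ i * (i + 1) * Real.log 2 := by rw [pow_succ]; ring
  rw [h5]
  linarith

theorem block_lower : ∃ i₀ : ℕ, ∀ i ≥ i₀,
    1 / (8 * ((i : ℝ) + 1)) ≤ ∑ p ∈ pri (4 ^ i) (4 ^ (i + 1)), 1 / (p : ℝ) := by
  obtain ⟨i₀, hi₀⟩ := small_terms
  have hl2 : (0 : ℝ) < Real.log 2 := Real.log_pos (by norm_num)
  have hl4 : Real.log 4 = 2 * Real.log 2 := by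
    rw [show (4 : ℝ) = 2 ^ 2 by norm_num, Real.log_pow]; norm_num
  refine ⟨i₀, fun i hi => ?_⟩
  have h0 := hi₀ i hi
  have h4p : (0 : ℝ) < 4 ^ (i + 1) := by positivity
  have h1 : ∀ p ∈ pri (4 ^ i) (4 ^ (i + 1)),
      Real.log p * (1 / (4 ^ (i + 1) * ((i + 1) * Real.log 4))) ≤ 1 / (p : ℝ) := by
    intro p hp
    rw [mem_pri] at hp
    have h2 : (p : ℝ) ≤ 4 ^ (i + 1) := by exact_mod_cast hp.1.2
    have hp1 : (1 : ℝ) ≤ p := by exact_mod_cast hp.2.one_le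
    have h3 : Real.log p ≤ (i + 1) * Real.log 4 := by
      calc Real.log p ≤ Real.log ((4 : ℝ) ^ (i + 1)) := Real.log_le_log (by linarith) h2
        _ = (i + 1) * Real.log 4 := by rw [Real.log_pow]; push_cast; ring
    have h5 : 0 < ((i : ℝ) + 1) * Real.log 4 := by rw [hl4]; positivity
    rw [mul_one_div, div_le_div_iff₀ (mul_pos h4p h5) (by linarith), one_mul]
    calc Real.log p * p ≤ ((i + 1) * Real.log 4) * 4 ^ (i + 1) :=
          mul_le_mul h3 h2 (by linarith) h5.le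
      _ = 4 ^ (i + 1) * ((i + 1) * Real.log 4) := by ring
  refine le_trans ?_ (sum_le_sum h1)
  rw [← sum_mul, theta_diff (Nat.pow_le_pow_right (by norm_num) (by omega))]
  have h2 : 4 ^ i * Real.log 2 ≤
      Chebyshev.theta ((4 ^ (i + 1) : ℕ) : ℝ) - Chebyshev.theta ((4 ^ i : ℕ) : ℝ) := by
    have h3 := Chebyshev.theta_ge (4 ^ (i + 1))
    have h4 := Chebyshev.theta_le_log4_mul_x (x := ((4 ^ i : ℕ) : ℝ)) (by positivity)
    have h5 : √((4 ^ (i + 1) : ℕ) : ℝ) = 2 ^ (i + 1) := by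
      have : ((4 ^ (i + 1) : ℕ) : ℝ) = (2 ^ (i + 1)) ^ 2 := by
        push_cast
        rw [← pow_mul, mul_comm (i + 1) 2, pow_mul]
        norm_num
      rw [this]
      exact Real.sqrt_sq (by positivity)
    have h6 : Real.log ((4 ^ (i + 1) : ℕ) : ℝ) = (i + 1) * Real.log 4 := by
      push_cast
      rw [Real.log_pow]; push_cast; ring
    rw [h5, h6] at h3
    push_cast at h3 h4 ⊢
    have h7 : (4 : ℝ) ^ (i + 1) * Real.log 2 = 4 * (4 ^ i * Real.log 2) := by rw [pow_succ]; ring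
    rw [h7] at h3
    rw [hl4] at h4 h3 h0
    linarith
  have h5 : 0 < ((i : ℝ) + 1) * Real.log 4 := by rw [hl4]; positivity
  calc 1 / (8 * ((i : ℝ) + 1)) = (4 ^ i * Real.log 2) * (1 / (4 ^ (i + 1) * ((i + 1) * Real.log 4))) := by
        rw [hl4, pow_succ]
        field_simp
        norm_num
    _ ≤ _ := mul_le_mul_of_nonneg_right h2 (by positivity)

theorem pri_split {a b c : ℕ} (hab : a ≤ b) (hbc : b ≤ c) :
    ∑ p ∈ pri a c, 1 / (p : ℝ) = ∑ p ∈ pri a b, 1 / (p : ℝ) + ∑ p ∈ pri b c, 1 / (p : ℝ) := by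
  rw [← sum_union]
  · congr 1
    ext p
    simp only [mem_union, mem_pri]
    constructor
    · rintro ⟨h1, h2⟩
      by_cases h : p ≤ b
      · exact Or.inl ⟨⟨h1.1, h⟩, h2⟩
      · exact Or.inr ⟨⟨by omega, h1.2⟩, h2⟩
    · rintro (⟨h1, h2⟩ | ⟨h1, h2⟩)
      · exact ⟨⟨h1.1, by omega⟩, h2⟩
      · exact ⟨⟨by omega, by omega⟩, h2⟩
  · rw [disjoint_left]
    intro p hp hp'
    simp only [mem_pri] at hp hp'
    omega

theorem blocks_upper {J : ℕ} (hJ : 1 ≤ J) (n : ℕ) :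
    ∑ p ∈ pri (4 ^ J) (4 ^ (J + n)), 1 / (p : ℝ) ≤ n * (4 / J) := by
  induction n with
  | zero =>
    have : pri (4 ^ J) (4 ^ (J + 0)) = ∅ := by
      unfold pri; simp
    rw [this]; simp
  | succ n ih =>
    rw [← add_assoc, pri_split (b := 4 ^ (J + n)) (Nat.pow_le_pow_right (by norm_num) (by omega))
      (Nat.pow_le_pow_right (by norm_num) (by omega))]
    have h1 := block_upper (i := J + n) (by omega)
    have h2 : (4 : ℝ) / ((J + n : ℕ) : ℝ) ≤ 4 / J := by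
      have : (0 : ℝ) < J := by exact_mod_cast hJ
      apply div_le_div_of_nonneg_left (by norm_num) this
      push_cast
      have : (0 : ℝ) ≤ n := Nat.cast_nonneg n
      linarith
    push_cast
    linarith

theorem blocks_lower : ∃ i₀ : ℕ, ∀ J ≥ i₀, ∀ N n : ℕ, n ≤ N →
    n * (1 / (8 * ((J : ℝ) + N))) ≤ ∑ p ∈ pri (4 ^ J) (4 ^ (J + n)), 1 / (p : ℝ) := by
  obtain ⟨i₀, hi₀⟩ := block_lower
  refine ⟨i₀, fun J hJ N n hn => ?_⟩
  induction n with
  | zero =>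
    have : pri (4 ^ J) (4 ^ (J + 0)) = ∅ := by
      unfold pri; simp
    rw [this]; simp
  | succ n ih =>
    rw [← add_assoc, pri_split (b := 4 ^ (J + n)) (Nat.pow_le_pow_right (by norm_num) (by omega))
      (Nat.pow_le_pow_right (by norm_num) (by omega))]
    have h1 := hi₀ (J + n) (by omega)
    have h2 : 1 / (8 * ((J : ℝ) + N)) ≤ 1 / (8 * (((J + n : ℕ) : ℝ) + 1)) := by
      apply one_div_le_one_div_of_le
      · positivity
      · push_cast
        have : ((n : ℝ) + 1) ≤ N := by exact_mod_cast hn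
        linarith
    have h3 := ih (by omega)
    push_cast at h3 ⊢
    push_cast at h1 h2
    linarith

/-- The primes between `4 ^ ((2 k - 1) j)` and `4 ^ (2 k j)`. -/
theorem lam_bounds (k : ℕ) (hk : 1 ≤ k) : ∃ j₀ : ℕ, 1 ≤ j₀ ∧ ∀ j ≥ j₀,
    1 / (16 * (k : ℝ)) ≤ ∑ p ∈ pri (4 ^ (j * (2 * k - 1))) (4 ^ (j * (2 * k))), 1 / (p : ℝ) ∧
    ∑ p ∈ pri (4 ^ (j * (2 * k - 1))) (4 ^ (j * (2 * k))), 1 / (p : ℝ) ≤ 4 / ((2 * k - 1 : ℕ) : ℝ) := by
  obtain ⟨i₀, hi₀⟩ := blocks_lower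
  refine ⟨max 1 i₀, le_max_left _ _, fun j hj => ?_⟩
  have hj1 : 1 ≤ j := (le_max_left _ _).trans hj
  have hj2 : i₀ ≤ j := (le_max_right _ _).trans hj
  have hk1 : 1 ≤ 2 * k - 1 := by omega
  have e1 : j * (2 * k) = j * (2 * k - 1) + j := by
    have : 2 * k = (2 * k - 1) + 1 := by omega
    conv_lhs => rw [this, mul_add, mul_one]
  have hJ : j ≤ j * (2 * k - 1) := Nat.le_mul_of_pos_right j hk1
  have hj0 : (0 : ℝ) < j := by exact_mod_cast hj1
  have hk0 : (0 : ℝ) < k := by exact_mod_cast hk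
  rw [e1]
  constructor
  · have h1 := hi₀ (j * (2 * k - 1)) (by omega) j j le_rfl
    refine le_trans (le_of_eq ?_) h1
    have e2 : ((j * (2 * k - 1) : ℕ) : ℝ) + j = j * (2 * k) := by
      exact_mod_cast e1.symm
    rw [e2]
    field_simp
    norm_num
  · have h1 := blocks_upper (J := j * (2 * k - 1)) (by omega) j
    refine h1.trans (le_of_eq ?_)
    have hk' : (0 : ℝ) < ((2 * k - 1 : ℕ) : ℝ) := by exact_mod_cast hk1
    rw [Nat.cast_mul]
    field_simp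

end Pool.Agent.Helper27.TripAP
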