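import Mathlib

/-!
# Counting residues modulo a product of primes
-/

set_option autoImplicit false

namespace Pool.Agent.Helper27.TripAP

open Finset

theorem crt_count (s : Finset ℕ) (hp : ∀ p ∈ s, p.Prime) (B : ℕ → ℕ → Prop)
    [∀ p n, Decidable (B p n)] (hB : ∀ p n, B p (n % p) ↔ B p n) :
    ((range (∏ p ∈ s, p)).filter (fun d => ∀ p ∈ s, B p d)).card =
      ∏ p ∈ s, ((range p).filter (fun d => B p d)).card := by
  classical
  induction s using Finset.induction_on with
  | empty => simp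
  | insert p s h ih =>
    have hps : ∀ q ∈ s, q.Prime := fun q hq => hp q (mem_insert_of_mem hq)
    have hpp : p.Prime := hp p (mem_insert_self _ _)
    rw [prod_insert h, prod_insert h, ← ih hps]
    set N := ∏ q ∈ s, q with hN
    have hN0 : 0 < N := Nat.pos_of_ne_zero (prod_ne_zero_iff.2 fun q hq => (hps q hq).ne_zero)
    have hcop : Nat.Coprime p N := by
      rw [hN]
      refine Nat.Coprime.prod_right fun q hq => ?_
      rw [Nat.coprime_primes hpp (hps q hq)]
      rintro rfl
      exact h hq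
    rw [← card_product]
    have hmod : ∀ q ∈ s, ∀ d : ℕ, B q (d % N) ↔ B q d := by
      intro q hq d
      have hdv : q ∣ N := dvd_prod_of_mem _ hq
      rw [← hB q (d % N), Nat.mod_mod_of_dvd _ hdv, hB]
    refine card_bij (fun d _ => (d % p, d % N)) ?_ ?_ ?_
    · intro d hd
      rw [mem_filter, mem_range] at hd
      rw [mem_product, mem_filter, mem_filter, mem_range, mem_range]
      refine ⟨⟨Nat.mod_lt _ hpp.pos, (hB p d).2 (hd.2 p (mem_insert_self _ _))⟩,
        Nat.mod_lt _ hN0, fun q hq => (hmod q hq d).2 (hd.2 q (mem_insert_of_mem hq))⟩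
    · intro d hd d' hd' hdd
      rw [mem_filter, mem_range] at hd hd'
      simp only [Prod.mk.injEq] at hdd
      have h1 : d ≡ d' [MOD p * N] :=
        (Nat.modEq_and_modEq_iff_modEq_mul hcop).1 ⟨hdd.1, hdd.2⟩
      have h2 := Nat.ModEq.eq_of_lt_of_lt h1 hd.1 hd'.1
      exact h2
    · rintro ⟨x, y⟩ hxy
      rw [mem_product, mem_filter, mem_filter, mem_range, mem_range] at hxy
      obtain ⟨⟨hx, hBx⟩, hy, hBy⟩ := hxy
      simp only at hx hBx hy hBy
      obtain ⟨d, hd1, hd2⟩ := Nat.chineseRemainder hcop x y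
      have hd3 : (d % (p * N)) % p = x := by
        rw [Nat.mod_mul_right_mod, hd1, Nat.mod_eq_of_lt hx]
      have hd4 : (d % (p * N)) % N = y := by
        rw [Nat.mod_mul_left_mod, hd2, Nat.mod_eq_of_lt hy]
      refine ⟨d % (p * N), ?_, ?_⟩
      · rw [mem_filter, mem_range]
        refine ⟨Nat.mod_lt _ (Nat.mul_pos hpp.pos hN0), fun q hq => ?_⟩
        rw [mem_insert] at hq
        rcases hq with rfl | hq
        · rw [← hB, hd3]; exact hBx
        · rw [← hmod q hq, hd4]; exact hBy q hq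
      · simp only [Prod.mk.injEq]
        exact ⟨hd3, hd4⟩

/-- residues modulo `p` which are not zero -/
theorem count_units {p : ℕ} (hp : p.Prime) :
    ((range p).filter (fun d => ¬ p ∣ d)).card = p - 1 := by
  have h1 : (range p).filter (fun d => ¬ p ∣ d) = (range p).erase 0 := by
    ext d
    simp only [mem_filter, mem_range, mem_erase]
    constructor
    · rintro ⟨h, h'⟩
      refine ⟨fun h0 => h' (by rw [h0]; exact dvd_zero _), h⟩
    · rintro ⟨h, h'⟩
      exact ⟨h', fun hd => h (Nat.eq_zero_of_dvd_of_lt hd h')⟩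
  rw [h1, card_erase_of_mem (mem_range.2 hp.pos), card_range]

/-- at most one residue with `p ∣ c d + v` -/
theorem count_root {p : ℕ} (hp : p.Prime) (c v : ℕ) (hc : ¬ p ∣ c) :
    ((range p).filter (fun d => p ∣ c * d + v)).card ≤ 1 := by
  rw [card_le_one]
  intro a ha b hb
  rw [mem_filter, mem_range] at ha hb
  have h1 : c * a + v ≡ c * b + v [MOD p] :=
    ((Nat.modEq_zero_iff_dvd.2 ha.2).trans (Nat.modEq_zero_iff_dvd.2 hb.2).symm)
  have h2 : c * a ≡ c * b [MOD p] := Nat.ModEq.add_right_cancel' v h1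
  have h3 : a ≡ b [MOD p] := by
    refine Nat.ModEq.cancel_left_of_coprime ?_ h2
    exact (hp.coprime_iff_not_dvd.2 hc)
  exact Nat.ModEq.eq_of_lt_of_lt h3 ha.1 hb.1

theorem count_three {p : ℕ} (hp : p.Prime) (c u v : ℕ) (hc : ¬ p ∣ c) :
    p - 3 ≤ ((range p).filter (fun d => ¬ p ∣ d ∧ ¬ p ∣ c * d + u ∧ ¬ p ∣ c * d + v)).card := by
  classical
  have h1 := count_root hp c u hc
  have h2 := count_root hp c v hc
  have h3 : (range p).card ≤ ((range p).filter (fun d => ¬ p ∣ d ∧ ¬ p ∣ c * d + u ∧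
      ¬ p ∣ c * d + v)).card + (({0} : Finset ℕ) ∪ (range p).filter (fun d => p ∣ c * d + u) ∪
      (range p).filter (fun d => p ∣ c * d + v)).card := by
    refine le_trans (card_le_card ?_) (card_union_le _ _)
    intro d hd
    rw [mem_union, mem_filter, mem_union, mem_union, mem_filter, mem_filter, mem_singleton]
    by_cases e1 : p ∣ d
    · right; left; left
      exact Nat.eq_zero_of_dvd_of_lt e1 (mem_range.1 hd)
    · by_cases e2 : p ∣ c * d + u
      · right; left; right; exact ⟨hd, e2⟩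
      · by_cases e3 : p ∣ c * d + v
        · right; right; exact ⟨hd, e3⟩
        · left; exact ⟨hd, e1, e2, e3⟩
  have h4 : (({0} : Finset ℕ) ∪ (range p).filter (fun d => p ∣ c * d + u) ∪
      (range p).filter (fun d => p ∣ c * d + v)).card ≤ 1 + 1 + 1 := by
    refine (card_union_le _ _).trans (Nat.add_le_add ((card_union_le _ _).trans ?_) h2)
    exact Nat.add_le_add (by simp) h1
  rw [card_range] at h3
  omega

/-- The start `a` of the progressions. -/
theorem exists_start (S Q : Finset ℕ) (hS : ∀ p ∈ S, p.Prime) (u : ℕ)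
    (hu : u = 2 ∨ u = 4) :
    ∃ a : ℕ, a < ∏ p ∈ S, p ∧ (∀ p ∈ S, p ∈ Q → p ∣ a) ∧
      (∀ p ∈ S, p ∉ Q → ¬ p ∣ a * (a + u) * (a + 6)) := by
  classical
  set t : ℕ → ℕ := fun p => if p ∈ Q then 0 else if p = 2 then 1 else if p = 3 then u else 2 with ht
  have hpair : Set.Pairwise (S : Set ℕ) (Function.onFun Nat.Coprime (fun p : ℕ => p)) := by
    intro p hp q hq hpq
    exact (Nat.coprime_primes (hS p hp) (hS q hq)).2 hpq
  obtain ⟨a₀, ha₀⟩ := Nat.chineseRemainderOfFinset t (fun p => p) S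
    (fun p hp => (hS p hp).ne_zero) hpair
  have hN0 : 0 < ∏ p ∈ S, p := Nat.pos_of_ne_zero (prod_ne_zero_iff.2 fun q hq => (hS q hq).ne_zero)
  refine ⟨a₀ % ∏ p ∈ S, p, Nat.mod_lt _ hN0, ?_, ?_⟩
  · intro p hp hpQ
    have h1 := ha₀ p hp
    have h2 : (a₀ % ∏ p ∈ S, p) ≡ t p [MOD p] := by
      refine Nat.ModEq.trans ?_ h1
      exact Nat.mod_mod_of_dvd a₀ (dvd_prod_of_mem _ hp)
    have h3 : t p = 0 := by rw [ht]; simp [hpQ]
    rw [h3] at h2
    exact Nat.modEq_zero_iff_dvd.1 h2
  · intro p hp hpQ hdv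
    have h1 := ha₀ p hp
    have h2 : (a₀ % ∏ p ∈ S, p) ≡ t p [MOD p] := by
      refine Nat.ModEq.trans ?_ h1
      exact Nat.mod_mod_of_dvd a₀ (dvd_prod_of_mem _ hp)
    have h3 : t p * (t p + u) * (t p + 6) ≡ 0 [MOD p] := by
      refine Nat.ModEq.trans ?_ (Nat.modEq_zero_iff_dvd.2 hdv)
      exact ((h2.mul (h2.add_right u)).mul (h2.add_right 6)).symm
    rw [Nat.modEq_zero_iff_dvd] at h3
    have hpp := hS p hp
    by_cases e2 : p = 2
    · have h4 : t p = 1 := by rw [ht]; simp only; rw [if_neg hpQ, if_pos e2]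
      rw [h4, e2] at h3
      rcases hu with rfl | rfl <;> omega
    · by_cases e3 : p = 3
      · have h4 : t p = u := by rw [ht]; simp only; rw [if_neg hpQ, if_neg e2, if_pos e3]
        rw [h4, e3] at h3
        rcases hu with rfl | rfl <;> omega
      · have h4 : t p = 2 := by rw [ht]; simp [hpQ, e2, e3]
        rw [h4] at h3
        have h5 : p ∣ 2 ^ 6 * 3 := by
          rcases hu with rfl | rfl
          · exact h3.trans ⟨3, by norm_num⟩
          · exact h3.trans ⟨2, by norm_num⟩
        rw [hpp.dvd_mul] at h5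
        rcases h5 with h5 | h5
        · have := hpp.dvd_of_dvd_pow h5
          exact e2 ((Nat.prime_dvd_prime_iff_eq hpp Nat.prime_two).1 this)
        · exact e3 ((Nat.prime_dvd_prime_iff_eq hpp Nat.prime_three).1 h5)

end Pool.Agent.Helper27.TripAP
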