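import Mathlib

/-!
# Prime triplets in arithmetic progressions: definitions and elementary facts
-/

set_option autoImplicit false

namespace Pool.Agent.Helper27.TripAP

open Finset

/-- The number of `n ≤ y` with `n ≡ a (mod q)` such that `n`, `n + u`, `n + 6` are all prime. -/
def trip (u y q a : ℕ) : ℕ :=
  ((range (y + 1)).filter (fun n => n % q = a % q ∧ n.Prime ∧ (n + u).Prime ∧ (n + 6).Prime)).card

/-- The number of residue classes `n` modulo `p` for which `p` divides `n (n + u) (n + 6)`. -/
def nu (u p : ℕ) : ℕ := ((range p).filter (fun n => p ∣ n * (n + u) * (n + 6))).card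

/-- The product of `1 / (1 - nu u p / p)` over the primes `p` dividing `q`. -/
noncomputable def loc (u q : ℕ) : ℝ := ∏ p ∈ q.primeFactors, (1 - (nu u p : ℝ) / p)⁻¹

/-- The Hardy-Littlewood prediction for `trip u y q a` (for `a (a + u) (a + 6)` prime to `q`). -/
noncomputable def hl (D : ℝ) (u y q : ℕ) : ℝ := D * loc u q * ((y : ℝ) / q) / Real.log y ^ 3

/-- `n`, `n + u`, `n + 6` are primes -/
def IsTrip (u n : ℕ) : Prop := n.Prime ∧ (n + u).Prime ∧ (n + 6).Prime

instance (u n : ℕ) : Decidable (IsTrip u n) := by unfold IsTrip; infer_instance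

theorem nu_eq_three {u p : ℕ} (hu : u = 2 ∨ u = 4) (hp : p.Prime) (h7 : 7 ≤ p) : nu u p = 3 := by
  have h1 : (range p).filter (fun n => p ∣ n * (n + u) * (n + 6)) = {0, p - u, p - 6} := by
    ext n
    simp only [mem_filter, mem_range, mem_insert, mem_singleton]
    constructor
    · rintro ⟨hn, hd⟩
      rw [hp.dvd_mul, hp.dvd_mul] at hd
      rcases hd with (hd | hd) | hd
      · left; exact Nat.eq_zero_of_dvd_of_lt hd hn
      · right; left
        obtain ⟨k, hk⟩ := hd
        have hk1 : k = 1 := by
          have h2 : k < 2 := by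
            by_contra h
            have h3 : p * 2 ≤ p * k := Nat.mul_le_mul_left p (by omega)
            rcases hu with rfl | rfl <;> omega
          have h3 : k ≠ 0 := by
            rintro rfl
            rcases hu with rfl | rfl <;> omega
          omega
        rw [hk1] at hk; omega
      · right; right
        obtain ⟨k, hk⟩ := hd
        have hk1 : k = 1 := by
          have h2 : k < 2 := by
            by_contra h
            have h3 : p * 2 ≤ p * k := Nat.mul_le_mul_left p (by omega)
            omega
          have h3 : k ≠ 0 := by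
            rintro rfl
            omega
          omega
        rw [hk1] at hk; omega
    · rintro (rfl | rfl | rfl)
      · exact ⟨hp.pos, by simp⟩
      · refine ⟨by rcases hu with rfl | rfl <;> omega, ?_⟩
        have : p - u + u = p := by rcases hu with rfl | rfl <;> omega
        rw [this]
        exact Dvd.dvd.mul_right (Dvd.intro_left _ rfl) _
      · refine ⟨by omega, ?_⟩
        have : p - 6 + 6 = p := by omega
        rw [this]
        exact Dvd.intro_left _ rfl
  rw [nu, h1, card_insert_of_notMem, card_insert_of_notMem, card_singleton]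
  · rw [mem_singleton]; rcases hu with rfl | rfl <;> omega
  · rw [mem_insert, mem_singleton]; rcases hu with rfl | rfl <;> omega

theorem nu_lt {u p : ℕ} (hu : u = 2 ∨ u = 4) (hp : p.Prime) : nu u p < p := by
  rcases Nat.lt_or_ge p 7 with h | h
  · have h2 := hp.two_le
    interval_cases p
    · rcases hu with rfl | rfl <;> decide
    · rcases hu with rfl | rfl <;> decide
    · exact absurd hp (by decide)
    · rcases hu with rfl | rfl <;> decide
    · exact absurd hp (by decide)
  · rw [nu_eq_three hu hp h]; omega

theorem fac_pos {u p : ℕ} (hu : u = 2 ∨ u = 4) (hp : p.Prime) : 0 < 1 - (nu u p : ℝ) / p := by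
  have h1 := nu_lt hu hp
  have h2 : (0 : ℝ) < p := by exact_mod_cast hp.pos
  rw [sub_pos, div_lt_one h2]
  exact_mod_cast h1

theorem one_le_fac {u p : ℕ} (hu : u = 2 ∨ u = 4) (hp : p.Prime) :
    1 ≤ (1 - (nu u p : ℝ) / p)⁻¹ := by
  have h1 := fac_pos hu hp
  have h2 : (0 : ℝ) ≤ (nu u p : ℝ) / p := by positivity
  exact (one_le_inv₀ h1).2 (by linarith)

theorem loc_pos {u : ℕ} (hu : u = 2 ∨ u = 4) (q : ℕ) : 0 < loc u q :=
  prod_pos fun _ hp => inv_pos.2 (fac_pos hu (Nat.prime_of_mem_primeFactors hp))

/-- counting in a piece of a progression -/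
theorem trip_sub (u a q : ℕ) (hq : 0 < q) {M N : ℕ} (hMN : M ≤ N) :
    trip u (a + N * q) q a = trip u (a + M * q) q a +
      ((Ioc M N).filter (fun l => IsTrip u (a + l * q))).card := by
  classical
  have hMq : M * q ≤ N * q := Nat.mul_le_mul_right q hMN
  have h1 : (range (a + N * q + 1)).filter
      (fun n => n % q = a % q ∧ n.Prime ∧ (n + u).Prime ∧ (n + 6).Prime) =
      (range (a + M * q + 1)).filter
      (fun n => n % q = a % q ∧ n.Prime ∧ (n + u).Prime ∧ (n + 6).Prime) ∪
      ((Ioc M N).filter (fun l => IsTrip u (a + l * q))).image (fun l => a + l * q) := by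
    ext n
    simp only [mem_filter, mem_range, mem_union, mem_image, mem_Ioc]
    constructor
    · rintro ⟨hn, hmod, hp⟩
      by_cases hle : n < a + M * q + 1
      · left; exact ⟨hle, hmod, hp⟩
      · right
        have han : a ≤ n := by
          have : 0 ≤ M * q := Nat.zero_le _
          omega
        have hdv : q ∣ n - a := (Nat.modEq_iff_dvd' han).1 hmod.symm
        obtain ⟨l, hl⟩ := hdv
        have hn' : n = a + l * q := by rw [mul_comm] at hl; omega
        refine ⟨l, ⟨⟨?_, ?_⟩, ?_⟩, hn'.symm⟩
        · by_contra h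
          have : l * q ≤ M * q := Nat.mul_le_mul_right q (by omega)
          omega
        · by_contra h
          have h2 : (N + 1) * q ≤ l * q := Nat.mul_le_mul_right q (by omega)
          have h3 : (N + 1) * q = N * q + q := by ring
          omega
        · rw [← hn']; exact hp
    · rintro (⟨hn, hmod, hp⟩ | ⟨l, ⟨⟨h1, h2⟩, h3⟩, rfl⟩)
      · exact ⟨by omega, hmod, hp⟩
      · have : l * q ≤ N * q := Nat.mul_le_mul_right q h2
        exact ⟨by omega, by simp, h3⟩
  have h2 : Disjoint ((range (a + M * q + 1)).filter
      (fun n => n % q = a % q ∧ n.Prime ∧ (n + u).Prime ∧ (n + 6).Prime))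
      (((Ioc M N).filter (fun l => IsTrip u (a + l * q))).image (fun l => a + l * q)) := by
    rw [disjoint_left]
    intro n hn hn'
    simp only [mem_filter, mem_range, mem_image, mem_Ioc] at hn hn'
    obtain ⟨l, ⟨⟨h1, -⟩, -⟩, rfl⟩ := hn'
    have : (M + 1) * q ≤ l * q := Nat.mul_le_mul_right q h1
    have h3 : (M + 1) * q = M * q + q := by ring
    omega
  unfold trip
  rw [h1, card_union_of_disjoint h2, card_image_of_injective]
  intro l l' h
  simp only at h
  have : l * q = l' * q := by omega
  exact Nat.eq_of_mul_eq_mul_right hq this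

/-- no triplets in inadmissible progressions -/
theorem no_trip {u a q l p : ℕ} (hp : p.Prime) (hpa : p ∣ a * (a + u) * (a + 6)) (hpq : p ∣ q)
    (hlt : p < a + l * q) : ¬ IsTrip u (a + l * q) := by
  rintro ⟨h1, h2, h3⟩
  have hlq : p ∣ l * q := Dvd.dvd.mul_left hpq l
  rw [hp.dvd_mul, hp.dvd_mul] at hpa
  rcases hpa with (h | h) | h
  · have h4 : p ∣ a + l * q := dvd_add h hlq
    rw [Nat.prime_dvd_prime_iff_eq hp h1] at h4
    omega
  · have h4 : p ∣ a + l * q + u := by
      have : a + l * q + u = a + u + l * q := by ring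
      rw [this]; exact dvd_add h hlq
    rw [Nat.prime_dvd_prime_iff_eq hp h2] at h4
    omega
  · have h4 : p ∣ a + l * q + 6 := by
      have : a + l * q + 6 = a + 6 + l * q := by ring
      rw [this]; exact dvd_add h hlq
    rw [Nat.prime_dvd_prime_iff_eq hp h3] at h4
    omega

end Pool.Agent.Helper27.TripAP
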