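import Mathlib

/-!
# Truncated inclusion-exclusion for weights: elementary symmetric functions
-/

set_option autoImplicit false

namespace Pool.Agent.Helper27.TripAP

open Finset

/-- elementary symmetric function of the reciprocals -/
noncomputable def E (j : ℕ) (s : Finset ℕ) : ℝ := ∑ t ∈ powersetCard j s, ∏ p ∈ t, (1 / (p : ℝ))

/-- truncated alternating sum -/
noncomputable def T (m : ℕ) (s : Finset ℕ) : ℝ := ∑ j ∈ range (m + 1), (-1) ^ j * E j s

/-- the full product -/
noncomputable def K (s : Finset ℕ) : ℝ := ∏ p ∈ s, (1 - 1 / (p : ℝ))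

theorem E_zero (s : Finset ℕ) : E 0 s = 1 := by simp [E]

theorem E_succ_empty (j : ℕ) : E (j + 1) ∅ = 0 := by
  unfold E
  rw [powersetCard_eq_empty.2 (by simp), sum_empty]

theorem E_insert (j : ℕ) {p : ℕ} {s : Finset ℕ} (h : p ∉ s) :
    E (j + 1) (insert p s) = E (j + 1) s + 1 / (p : ℝ) * E j s := by
  unfold E
  rw [powersetCard_succ_insert h, sum_union]
  · congr 1
    rw [sum_image, mul_sum]
    · refine sum_congr rfl fun t ht => ?_
      rw [mem_powersetCard] at ht
      rw [prod_insert fun h' => h (ht.1 h')]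
    · intro t ht t' ht' htt
      rw [mem_coe, mem_powersetCard] at ht ht'
      have h1 : p ∉ t := fun h' => h (ht.1 h')
      have h2 : p ∉ t' := fun h' => h (ht'.1 h')
      rw [← erase_insert h1, ← erase_insert h2, htt]
  · rw [disjoint_left]
    intro t ht ht'
    rw [mem_image] at ht'
    obtain ⟨t', -, rfl⟩ := ht'
    rw [mem_powersetCard] at ht
    exact h (ht.1 (mem_insert_self _ _))

theorem E_nonneg (j : ℕ) (s : Finset ℕ) : 0 ≤ E j s :=
  sum_nonneg fun _ _ => prod_nonneg fun _ _ => by positivity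

theorem E_one (s : Finset ℕ) : E 1 s = ∑ p ∈ s, 1 / (p : ℝ) := by
  induction s using Finset.induction_on with
  | empty => simp [E_succ_empty 0]
  | insert p s h ih =>
    rw [E_insert 0 h, ih, E_zero, sum_insert h]
    ring

theorem T_zero (s : Finset ℕ) : T 0 s = 1 := by simp [T, E_zero]

theorem T_insert (m : ℕ) {p : ℕ} {s : Finset ℕ} (h : p ∉ s) :
    T (m + 1) (insert p s) = T (m + 1) s - 1 / (p : ℝ) * T m s := by
  unfold T
  rw [sum_range_succ' _ (m + 1), sum_range_succ' _ (m + 1)]
  simp only [E_zero, E_insert _ h]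
  rw [mul_sum]
  have h1 : ∀ j ∈ range (m + 1), (-1 : ℝ) ^ (j + 1) * (E (j + 1) s + 1 / (p : ℝ) * E j s) =
      (-1) ^ (j + 1) * E (j + 1) s - 1 / (p : ℝ) * ((-1) ^ j * E j s) := by
    intro j _
    rw [pow_succ]
    ring
  rw [sum_congr rfl h1, sum_sub_distrib]
  ring

theorem K_insert {p : ℕ} {s : Finset ℕ} (h : p ∉ s) :
    K (insert p s) = (1 - 1 / (p : ℝ)) * K s := by
  unfold K
  rw [prod_insert h]

theorem K_nonneg (s : Finset ℕ) : 0 ≤ K s := by
  refine prod_nonneg fun p _ => ?_
  rcases Nat.eq_zero_or_pos p with rfl | hp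
  · simp
  · have h1 : (1 : ℝ) ≤ p := by exact_mod_cast hp
    have h2 : 1 / (p : ℝ) ≤ 1 := by rw [div_le_one (by linarith)]; exact h1
    linarith

/-- The error of the truncated alternating sum has the sign of the next term and is at least the
product times the next elementary symmetric function. -/
theorem T_error (s : Finset ℕ) : ∀ m : ℕ, K s * E (m + 1) s ≤ (-1) ^ m * (T m s - K s) := by
  induction s using Finset.induction_on with
  | empty =>
    intro m
    have h1 : T m ∅ = 1 := by
      unfold T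
      rw [sum_range_succ']
      simp [E_zero, E_succ_empty]
    have h2 : K ∅ = 1 := by simp [K]
    rw [h1, h2, E_succ_empty]
    simp
  | insert p s h ih =>
    intro m
    have hp0 : (0 : ℝ) ≤ 1 / (p : ℝ) := by positivity
    have hK := K_nonneg s
    rw [K_insert h, E_insert _ h]
    have h3 : (1 - 1 / (p : ℝ)) * K s ≤ K s := by nlinarith
    cases m with
    | zero =>
      rw [T_zero, E_zero]
      have h1 := ih 0
      rw [T_zero] at h1
      simp only [pow_zero, one_mul] at h1 ⊢
      have hE := E_nonneg 1 s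
      simp only [zero_add] at h1 ⊢
      have h4 : (1 - 1 / (p : ℝ)) * K s * (E 1 s + 1 / (p : ℝ) * 1) ≤
          K s * (E 1 s + 1 / (p : ℝ) * 1) :=
        mul_le_mul_of_nonneg_right h3 (by linarith)
      nlinarith
    | succ m =>
      rw [T_insert m h]
      have h1 := ih (m + 1)
      have h2 := ih m
      have hE := E_nonneg (m + 1 + 1) s
      have hE' := E_nonneg (m + 1) s
      have h4 : (1 - 1 / (p : ℝ)) * K s * (E (m + 1 + 1) s + 1 / (p : ℝ) * E (m + 1) s) ≤
          K s * (E (m + 1 + 1) s + 1 / (p : ℝ) * E (m + 1) s) :=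
        mul_le_mul_of_nonneg_right h3 (by positivity)
      have h5 : (-1 : ℝ) ^ (m + 1) * (T (m + 1) s - 1 / (p : ℝ) * T m s -
          (1 - 1 / (p : ℝ)) * K s) = (-1) ^ (m + 1) * (T (m + 1) s - K s) +
          1 / (p : ℝ) * ((-1) ^ m * (T m s - K s)) := by
        rw [pow_succ]; ring
      rw [h5]
      have h6 : 1 / (p : ℝ) * (K s * E (m + 1) s) ≤ 1 / (p : ℝ) * ((-1) ^ m * (T m s - K s)) :=
        mul_le_mul_of_nonneg_left h2 hp0
      nlinarith

/-- lower bound for the elementary symmetric functions -/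
theorem E_step (s : Finset ℕ) (δ : ℝ) (hδ : ∀ p ∈ s, 1 / (p : ℝ) ≤ δ) :
    ∀ n : ℕ, ((∑ p ∈ s, 1 / (p : ℝ)) - n * δ) * E n s ≤ (n + 1) * E (n + 1) s := by
  induction s using Finset.induction_on with
  | empty =>
    intro n
    rw [E_succ_empty]
    cases n with
    | zero => simp [E_zero]
    | succ n => simp [E_succ_empty]
  | insert p s h ih =>
    have ih' := ih fun q hq => hδ q (mem_insert_of_mem hq)
    have hw := hδ p (mem_insert_self _ _)
    intro n
    rw [sum_insert h, E_insert _ h]
    set w : ℝ := 1 / (p : ℝ) with hwdef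
    have hw0 : 0 ≤ w := by positivity
    set lam : ℝ := ∑ p ∈ s, 1 / (p : ℝ) with hlam
    cases n with
    | zero =>
      rw [E_zero, E_zero, zero_add, E_one]
      simp only [Nat.cast_zero, zero_mul, sub_zero, mul_one, zero_add, one_mul]
      linarith
    | succ n =>
      rw [E_insert _ h]
      have h1 := ih' (n + 1)
      have h2 := ih' n
      push_cast at h1 h2 ⊢
      have hE := E_nonneg n s
      have h3 : (lam + w - (n + 1) * δ) * E n s ≤ (n + 1) * E (n + 1) s := by
        refine le_trans ?_ h2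
        refine mul_le_mul_of_nonneg_right ?_ hE
        nlinarith
      have h4 := mul_le_mul_of_nonneg_left h3 hw0
      nlinarith

theorem E_lower (s : Finset ℕ) (δ lam0 : ℝ) (hδ : ∀ p ∈ s, 1 / (p : ℝ) ≤ δ) (n : ℕ)
    (hl : lam0 ≤ ∑ p ∈ s, 1 / (p : ℝ)) (h0 : 0 ≤ lam0) (hn : n * δ ≤ lam0 / 2) (hδ0 : 0 ≤ δ) :
    (lam0 / 2) ^ n / n.factorial ≤ E n s := by
  have key : ∀ k : ℕ, k ≤ n → (lam0 / 2) ^ k / k.factorial ≤ E k s := by
    intro k
    induction k with
    | zero => intro _; simp [E_zero]
    | succ k ih =>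
      intro hk
      have h1 := ih (by omega)
      have h2 := E_step s δ hδ k
      have h3 : lam0 / 2 ≤ (∑ p ∈ s, 1 / (p : ℝ)) - k * δ := by
        have h4 : (k : ℝ) * δ ≤ n * δ :=
          mul_le_mul_of_nonneg_right (by exact_mod_cast (by omega : k ≤ n)) hδ0
        linarith
      have h5 : lam0 / 2 * ((lam0 / 2) ^ k / k.factorial) ≤ (k + 1) * E (k + 1) s := by
        refine le_trans ?_ h2
        exact mul_le_mul h3 h1 (by positivity) (by linarith)
      rw [Nat.factorial_succ, pow_succ]
      push_cast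
      rw [div_le_iff₀ (by positivity)]
      have h6 : (0 : ℝ) < k.factorial := by exact_mod_cast k.factorial_pos
      have h7 : lam0 / 2 * ((lam0 / 2) ^ k / k.factorial) * k.factorial =
          (lam0 / 2) ^ k * (lam0 / 2) := by
        field_simp
      have h8 := mul_le_mul_of_nonneg_right h5 h6.le
      rw [h7] at h8
      linarith
  exact key n le_rfl

end Pool.Agent.Helper27.TripAP
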