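import Mathlib
import Pool.Agent.Helper27.TripAP.Defs

/-!
# Bounds for the local factors
-/

set_option autoImplicit false

namespace Pool.Agent.Helper27.TripAP

open Finset

theorem loc_le_of_dvd {u : ℕ} (hu : u = 2 ∨ u = 4) {q q' : ℕ} (h : q ∣ q') (h0 : q' ≠ 0) :
    loc u q ≤ loc u q' := by
  unfold loc
  refine Finset.prod_le_prod_of_subset_of_one_le (Nat.primeFactors_mono h h0) ?_ ?_
  · intro p hp
    exact (inv_pos.2 (fac_pos hu (Nat.prime_of_mem_primeFactors hp))).le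
  · intro p hp _
    exact one_le_fac hu (Nat.prime_of_mem_primeFactors hp)

theorem loc_prod {u : ℕ} (S : Finset ℕ) (hS : ∀ p ∈ S, p.Prime) :
    loc u (∏ p ∈ S, p) = ∏ p ∈ S, (1 - (nu u p : ℝ) / p)⁻¹ := by
  unfold loc
  rw [Nat.primeFactors_prod hS]

/-- a product of `k` factors `1 - 3 / p` with all `p > z` -/
theorem prod_three_ge {z : ℕ} (hz : 6 ≤ z) (T : Finset ℕ) (hT : ∀ p ∈ T, z < p) :
    1 - 3 * (T.card : ℝ) / z ≤ ∏ p ∈ T, (1 - 3 / (p : ℝ)) := by
  have hz0 : (6 : ℝ) ≤ z := by exact_mod_cast hz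
  have h1 : (1 - 3 / (z : ℝ)) ^ T.card ≤ ∏ p ∈ T, (1 - 3 / (p : ℝ)) := by
    rw [← prod_const]
    refine prod_le_prod ?_ ?_
    · intro p hp
      rw [sub_nonneg, div_le_one (by linarith)]
      linarith
    · intro p hp
      have h2 : (z : ℝ) ≤ p := by exact_mod_cast (hT p hp).le
      have h3 : 3 / (p : ℝ) ≤ 3 / z := div_le_div_of_nonneg_left (by norm_num) (by linarith) h2
      linarith
  have h2 := one_add_mul_le_pow (a := -(3 / (z : ℝ))) (by
    have : 3 / (z : ℝ) ≤ 1 := by rw [div_le_one (by linarith)]; linarith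
    linarith) T.card
  calc 1 - 3 * (T.card : ℝ) / z = 1 + T.card * (-(3 / (z : ℝ))) := by ring
    _ ≤ (1 + -(3 / (z : ℝ))) ^ T.card := h2
    _ = (1 - 3 / (z : ℝ)) ^ T.card := by ring
    _ ≤ _ := h1

theorem pow_card_le {z e : ℕ} (he : e ≠ 0) (T : Finset ℕ) (hT : T ⊆ e.primeFactors)
    (hz : ∀ p ∈ T, z < p) : z ^ T.card ≤ e := by
  calc z ^ T.card = ∏ _p ∈ T, z := by rw [prod_const]
    _ ≤ ∏ p ∈ T, p := prod_le_prod' fun p hp => (hz p hp).le
    _ ≤ e := by
      apply Nat.le_of_dvd (Nat.pos_of_ne_zero he)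
      exact (prod_dvd_prod_of_subset _ _ _ hT).trans (Nat.prod_primeFactors_dvd e)

theorem card_le_log {z e : ℕ} (hz : 2 ≤ z) (he : e ≠ 0) (T : Finset ℕ) (hT : T ⊆ e.primeFactors)
    (hTz : ∀ p ∈ T, z < p) : (T.card : ℝ) * Real.log z ≤ Real.log e := by
  have h1 := pow_card_le he T hT hTz
  have hz0 : (0 : ℝ) < z := by
    have : 0 < z := by omega
    exact_mod_cast this
  have h2 : ((z : ℝ)) ^ T.card ≤ e := by exact_mod_cast h1
  have h3 := Real.log_le_log (by positivity) h2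
  rwa [Real.log_pow] at h3

/-- The local factor of a row. -/
theorem loc_row_le {u : ℕ} (hu : u = 2 ∨ u = 4) {z W e : ℕ} (hz : 6 ≤ z) (hW : W ≠ 0) (he : e ≠ 0)
    (hfac : ∀ p : ℕ, p.Prime → p ∣ e → p ∣ W ∨ z < p) {ε L : ℝ} (hε : 0 < ε)
    (hL : Real.log e ≤ L) (hzL : 3 * L * (1 + ε) ≤ ε * (z * Real.log z)) :
    loc u (W * e) ≤ (1 + ε) * loc u W := by
  classical
  set T := (e.primeFactors).filter (fun p => z < p) with hT
  have hz0 : (6 : ℝ) ≤ z := by exact_mod_cast hz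
  have hlz : 0 < Real.log z := Real.log_pos (by linarith)
  have hsub : (W * e).primeFactors ⊆ W.primeFactors ∪ T := by
    intro p hp
    rw [Nat.primeFactors_mul hW he, mem_union] at hp
    rw [mem_union]
    rcases hp with hp | hp
    · exact Or.inl hp
    · rcases hfac p (Nat.prime_of_mem_primeFactors hp) (Nat.dvd_of_mem_primeFactors hp) with h | h
      · exact Or.inl (Nat.mem_primeFactors.2 ⟨Nat.prime_of_mem_primeFactors hp, h, hW⟩)
      · exact Or.inr (by rw [hT, mem_filter]; exact ⟨hp, h⟩)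
  have hprime : ∀ p ∈ W.primeFactors ∪ T, p.Prime := by
    intro p hp
    rw [mem_union] at hp
    rcases hp with hp | hp
    · exact Nat.prime_of_mem_primeFactors hp
    · rw [hT, mem_filter] at hp
      exact Nat.prime_of_mem_primeFactors hp.1
  have h1 : loc u (W * e) ≤ ∏ p ∈ W.primeFactors ∪ T, (1 - (nu u p : ℝ) / p)⁻¹ := by
    unfold loc
    refine Finset.prod_le_prod_of_subset_of_one_le hsub ?_ ?_
    · intro p hp
      exact (inv_pos.2 (fac_pos hu (Nat.prime_of_mem_primeFactors hp))).le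
    · intro p hp _
      exact one_le_fac hu (hprime p hp)
  have h2 : ∏ p ∈ W.primeFactors ∪ T, (1 - (nu u p : ℝ) / p)⁻¹ ≤
      loc u W * ∏ p ∈ T, (1 - (nu u p : ℝ) / p)⁻¹ := by
    have h3 : W.primeFactors ∪ T = W.primeFactors ∪ (T \ W.primeFactors) := by
      rw [union_sdiff_self_eq_union]
    rw [h3, prod_union disjoint_sdiff]
    unfold loc
    apply mul_le_mul_of_nonneg_left
    · refine Finset.prod_le_prod_of_subset_of_one_le sdiff_subset ?_ ?_
      · intro p hp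
        exact (inv_pos.2 (fac_pos hu (hprime p (mem_union_right _ (mem_sdiff.1 hp).1)))).le
      · intro p hp _
        exact one_le_fac hu (hprime p (mem_union_right _ hp))
    · exact prod_nonneg fun p hp =>
        (inv_pos.2 (fac_pos hu (Nat.prime_of_mem_primeFactors hp))).le
  have h3 : ∏ p ∈ T, (1 - (nu u p : ℝ) / p)⁻¹ = (∏ p ∈ T, (1 - 3 / (p : ℝ)))⁻¹ := by
    rw [← prod_inv_distrib]
    refine prod_congr rfl fun p hp => ?_
    rw [hT, mem_filter] at hp
    rw [nu_eq_three hu (Nat.prime_of_mem_primeFactors hp.1) (by omega)]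
    norm_num
  have hTz : ∀ p ∈ T, z < p := by
    intro p hp
    rw [hT, mem_filter] at hp
    exact hp.2
  have h4 := prod_three_ge hz T hTz
  have h5 := card_le_log (by omega) he T (filter_subset _ _) hTz
  have h6 : 3 * (T.card : ℝ) / z ≤ ε / (1 + ε) := by
    rw [div_le_div_iff₀ (by linarith) (by linarith)]
    have h7 : (T.card : ℝ) * Real.log z * (3 * (1 + ε)) ≤ L * (3 * (1 + ε)) :=
      mul_le_mul_of_nonneg_right (h5.trans hL) (by linarith)
    have h8 : (3 * (T.card : ℝ) * (1 + ε)) * Real.log z ≤ (ε * z) * Real.log z := by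
      calc (3 * (T.card : ℝ) * (1 + ε)) * Real.log z = (T.card : ℝ) * Real.log z * (3 * (1 + ε)) := by ring
        _ ≤ L * (3 * (1 + ε)) := h7
        _ = 3 * L * (1 + ε) := by ring
        _ ≤ ε * (z * Real.log z) := hzL
        _ = _ := by ring
    exact le_of_mul_le_mul_right h8 hlz
  have h7 : (1 + ε)⁻¹ ≤ ∏ p ∈ T, (1 - 3 / (p : ℝ)) := by
    have : (1 + ε)⁻¹ = 1 - ε / (1 + ε) := by
      field_simp
      ring
    rw [this]
    linarith
  have h8 : (∏ p ∈ T, (1 - 3 / (p : ℝ)))⁻¹ ≤ 1 + ε := by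
    rw [inv_le_comm₀ (lt_of_lt_of_le (inv_pos.2 (by linarith)) h7) (by linarith)]
    exact h7
  calc loc u (W * e) ≤ loc u W * ∏ p ∈ T, (1 - (nu u p : ℝ) / p)⁻¹ := h1.trans h2
    _ = loc u W * (∏ p ∈ T, (1 - 3 / (p : ℝ)))⁻¹ := by rw [h3]
    _ ≤ loc u W * (1 + ε) := mul_le_mul_of_nonneg_left h8 (loc_pos hu W).le
    _ = _ := mul_comm _ _

/-- The local factor of a column. -/
theorem loc_col {u : ℕ} (hu : u = 2 ∨ u = 4) (S s : Finset ℕ) (hs : s ⊆ S) (hS : ∀ p ∈ S, p.Prime)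
    (h7 : ∀ p ∈ s, 7 ≤ p) {l : ℕ} (hl : l ≠ 0) :
    loc u (∏ p ∈ S \ s, p) * ∏ p ∈ s, ((p : ℝ) / (p - 3)) ≤ loc u (l * ∏ p ∈ S, p) := by
  classical
  have h0 : (∏ p ∈ S, p) ≠ 0 := prod_ne_zero_iff.2 fun q hq => (hS q hq).ne_zero
  refine le_trans (le_of_eq ?_) (loc_le_of_dvd hu (Dvd.intro_left l rfl) (mul_ne_zero hl h0))
  rw [loc_prod S hS, loc_prod (S \ s) (fun p hp => hS p (mem_sdiff.1 hp).1),
    ← prod_sdiff hs]
  congr 1
  refine prod_congr rfl fun p hp => ?_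
  rw [nu_eq_three hu (hS p (hs hp)) (h7 p hp)]
  have h1 : (7 : ℝ) ≤ p := by exact_mod_cast h7 p hp
  have h2 : (p : ℝ) - 3 ≠ 0 := by
    intro h
    linarith
  have h3 : (p : ℝ) ≠ 0 := by
    intro h
    linarith
  push_cast
  rw [one_sub_div h3, inv_div]

end Pool.Agent.Helper27.TripAP
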