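import Mathlib
import Pool.Agent.Helper27.TripAP.Defs

/-!
# Counting in a dyadic piece of a progression, assuming the asymptotic formula
-/

set_option autoImplicit false

namespace Pool.Agent.Helper27.TripAP

open Finset

/-- The asymptotic formula holds with relative error `c` in all progressions below `x`. -/
def Good (D : ℝ) (u A : ℕ) (c : ℝ) (x : ℕ) : Prop :=
  ∀ y q a : ℕ, x ≤ 16 * y → y ≤ x → 1 ≤ q → (q : ℝ) * Real.log y ^ A ≤ y →
    Nat.Coprime (a * (a + u) * (a + 6)) q → |(trip u y q a : ℝ) - hl D u y q| < c * hl D u y q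

theorem hl_bounds {D : ℝ} (hD : 0 < D) {u : ℕ} (hu : u = 2 ∨ u = 4) {x : ℕ}
    {L L' : ℝ} (hL : L = Real.log x) (hL' : L' = Real.log x - Real.log 16) (hpos : 0 < L')
    {y q : ℕ} (h1 : x ≤ 16 * y) (h2 : y ≤ x) (hq : 1 ≤ q) :
    D * loc u q * ((y : ℝ) / q) / L ^ 3 ≤ hl D u y q ∧
      hl D u y q ≤ D * loc u q * ((y : ℝ) / q) / L' ^ 3 := by
  have hx0 : (0 : ℝ) < x := by
    rcases Nat.eq_zero_or_pos x with h | h
    · exfalso
      rw [h] at hL'
      simp only [CharP.cast_eq_zero, Real.log_zero] at hL'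
      have : 0 < Real.log 16 := Real.log_pos (by norm_num)
      linarith
    · exact_mod_cast h
  have hy0 : (0 : ℝ) < y := by
    have h3 : (x : ℝ) ≤ 16 * y := by exact_mod_cast h1
    linarith
  have hy1 : Real.log y ≤ L := by
    rw [hL]
    exact Real.log_le_log hy0 (by exact_mod_cast h2)
  have hy2 : L' ≤ Real.log y := by
    have h3 : (x : ℝ) ≤ 16 * y := by exact_mod_cast h1
    have h4 : Real.log x ≤ Real.log (16 * y) := Real.log_le_log hx0 h3
    rw [Real.log_mul (by norm_num) hy0.ne'] at h4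
    linarith
  have hly : 0 < Real.log y := lt_of_lt_of_le hpos hy2
  have hloc := loc_pos hu q
  have hq0 : (0 : ℝ) < q := by exact_mod_cast hq
  have hnum : 0 ≤ D * loc u q * ((y : ℝ) / q) := by positivity
  unfold hl
  constructor
  · apply div_le_div_of_nonneg_left hnum (by positivity)
    exact pow_le_pow_left₀ hly.le hy1 3
  · apply div_le_div_of_nonneg_left hnum (by positivity)
    exact pow_le_pow_left₀ hpos.le hy2 3

theorem prog_bounds {D : ℝ} (hD : 0 < D) {u : ℕ} (hu : u = 2 ∨ u = 4) {A x : ℕ} {c : ℝ}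
    (hc0 : 0 ≤ c) (hc1 : c ≤ 1) (hG : Good D u A c x)
    {L L' : ℝ} (hL : L = Real.log x) (hL' : L' = Real.log x - Real.log 16) (hpos : 0 < L')
    {q a N : ℕ} (hq : 1 ≤ q) (ha : a ≤ 2 * q) (hx1 : x ≤ 16 * (a + N * q))
    (hx2 : a + (2 * N) * q ≤ x) (hA : L ^ A ≤ N)
    (hcop : Nat.Coprime (a * (a + u) * (a + 6)) q) :
    (((Ioc N (2 * N)).filter (fun l => IsTrip u (a + l * q))).card : ℝ) ≤
      D * loc u q * ((1 + c) * (2 * N + 2) / L' ^ 3 - (1 - c) * N / L ^ 3) ∧
    D * loc u q * ((1 - c) * (2 * N) / L ^ 3 - (1 + c) * (N + 2) / L' ^ 3) ≤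
      (((Ioc N (2 * N)).filter (fun l => IsTrip u (a + l * q))).card : ℝ) := by
  have hNq : N * q ≤ (2 * N) * q := Nat.mul_le_mul_right q (by omega)
  have hy1 : a + N * q ≤ x := by omega
  have hy2 : x ≤ 16 * (a + (2 * N) * q) := by omega
  have hq0 : (0 : ℝ) < q := by exact_mod_cast hq
  have hloc := loc_pos hu q
  have hLpos : 0 < L := by
    have : 0 < Real.log 16 := Real.log_pos (by norm_num)
    rw [hL]; rw [hL'] at hpos; linarith
  have hsub := trip_sub u a q hq (show N ≤ 2 * N by omega)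
  have hb1 := hl_bounds hD hu hL hL' hpos hx1 hy1 hq
  have hb2 := hl_bounds hD hu hL hL' hpos hy2 hx2 hq
  -- the size conditions
  have hlogy : ∀ y : ℕ, x ≤ 16 * y → y ≤ x → 0 ≤ Real.log y ∧ Real.log y ≤ L := by
    intro y h1 h2
    have hx0 : (0 : ℝ) < x := by
      rcases Nat.eq_zero_or_pos x with h | h
      · exfalso
        rw [h] at hL
        simp only [CharP.cast_eq_zero, Real.log_zero] at hL
        linarith
      · exact_mod_cast h
    have h3 : (x : ℝ) ≤ 16 * y := by exact_mod_cast h1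
    have hy0 : (0 : ℝ) < y := by linarith
    constructor
    · have : (1 : ℝ) ≤ y := by
        have : 0 < y := by exact_mod_cast hy0
        exact_mod_cast this
      exact Real.log_nonneg this
    · rw [hL]
      exact Real.log_le_log hy0 (by exact_mod_cast h2)
  have hsize : ∀ y : ℕ, x ≤ 16 * y → y ≤ x → N * q ≤ y → (q : ℝ) * Real.log y ^ A ≤ y := by
    intro y h1 h2 h3
    obtain ⟨h4, h5⟩ := hlogy y h1 h2
    calc (q : ℝ) * Real.log y ^ A ≤ q * L ^ A :=
          mul_le_mul_of_nonneg_left (pow_le_pow_left₀ h4 h5 A) hq0.le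
      _ ≤ q * N := mul_le_mul_of_nonneg_left hA hq0.le
      _ = ((N * q : ℕ) : ℝ) := by push_cast; ring
      _ ≤ y := by exact_mod_cast h3
  have hg1 := hG (a + N * q) q a hx1 hy1 hq (hsize _ hx1 hy1 (by omega)) hcop
  have hg2 := hG (a + (2 * N) * q) q a hy2 hx2 hq (hsize _ hy2 hx2 (by omega)) hcop
  rw [abs_lt] at hg1 hg2
  have hcount : (((Ioc N (2 * N)).filter (fun l => IsTrip u (a + l * q))).card : ℝ) =
      (trip u (a + (2 * N) * q) q a : ℝ) - (trip u (a + N * q) q a : ℝ) := by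
    rw [hsub]; push_cast; ring
  -- quotient bounds
  have haq : (a : ℝ) / q ≤ 2 := by
    rw [div_le_iff₀ hq0]; exact_mod_cast ha
  have haq0 : (0 : ℝ) ≤ (a : ℝ) / q := by positivity
  have e1 : (((a + N * q : ℕ) : ℝ)) / q = a / q + N := by
    push_cast; field_simp
  have e2 : (((a + (2 * N) * q : ℕ) : ℝ)) / q = a / q + 2 * N := by
    push_cast; field_simp
  rw [e1] at hb1
  rw [e2] at hb2
  have hDl : 0 < D * loc u q := mul_pos hD hloc
  have hN0 : (0 : ℝ) ≤ N := Nat.cast_nonneg N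
  have hL3 : 0 < L ^ 3 := by positivity
  have hL3' : 0 < L' ^ 3 := by positivity
  -- simplified bounds of hl
  have hb1l : D * loc u q * (N / L ^ 3) ≤ hl D u (a + N * q) q := by
    refine le_trans ?_ hb1.1
    rw [mul_div_assoc (D * loc u q)]
    apply mul_le_mul_of_nonneg_left _ hDl.le
    apply div_le_div_of_nonneg_right _ hL3.le
    linarith
  have hb1u : hl D u (a + N * q) q ≤ D * loc u q * ((N + 2) / L' ^ 3) := by
    refine hb1.2.trans ?_
    rw [mul_div_assoc (D * loc u q)]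
    apply mul_le_mul_of_nonneg_left _ hDl.le
    apply div_le_div_of_nonneg_right _ hL3'.le
    linarith
  have hb2l : D * loc u q * (2 * N / L ^ 3) ≤ hl D u (a + (2 * N) * q) q := by
    refine le_trans ?_ hb2.1
    rw [mul_div_assoc (D * loc u q)]
    apply mul_le_mul_of_nonneg_left _ hDl.le
    apply div_le_div_of_nonneg_right _ hL3.le
    linarith
  have hb2u : hl D u (a + (2 * N) * q) q ≤ D * loc u q * ((2 * N + 2) / L' ^ 3) := by
    refine hb2.2.trans ?_
    rw [mul_div_assoc (D * loc u q)]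
    apply mul_le_mul_of_nonneg_left _ hDl.le
    apply div_le_div_of_nonneg_right _ hL3'.le
    linarith
  rw [hcount]
  constructor
  · have h1 : (1 + c) * hl D u (a + (2 * N) * q) q ≤ (1 + c) * (D * loc u q * ((2 * N + 2) / L' ^ 3)) :=
      mul_le_mul_of_nonneg_left hb2u (by linarith)
    have h2 : (1 - c) * (D * loc u q * (N / L ^ 3)) ≤ (1 - c) * hl D u (a + N * q) q :=
      mul_le_mul_of_nonneg_left hb1l (by linarith)
    have h3 : D * loc u q * ((1 + c) * (2 * N + 2) / L' ^ 3 - (1 - c) * N / L ^ 3) =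
        (1 + c) * (D * loc u q * ((2 * N + 2) / L' ^ 3)) - (1 - c) * (D * loc u q * (N / L ^ 3)) := by
      ring
    rw [h3]
    linarith [hg1.1, hg1.2, hg2.1, hg2.2]
  · have h1 : (1 + c) * hl D u (a + N * q) q ≤ (1 + c) * (D * loc u q * ((N + 2) / L' ^ 3)) :=
      mul_le_mul_of_nonneg_left hb1u (by linarith)
    have h2 : (1 - c) * (D * loc u q * (2 * N / L ^ 3)) ≤ (1 - c) * hl D u (a + (2 * N) * q) q :=
      mul_le_mul_of_nonneg_left hb2l (by linarith)
    have h3 : D * loc u q * ((1 - c) * (2 * N) / L ^ 3 - (1 + c) * (N + 2) / L' ^ 3) =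
        (1 - c) * (D * loc u q * (2 * N / L ^ 3)) - (1 + c) * (D * loc u q * ((N + 2) / L' ^ 3)) := by
      ring
    rw [h3]
    linarith [hg1.1, hg1.2, hg2.1, hg2.2]

end Pool.Agent.Helper27.TripAP
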