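import Pool.Agent.Helper27.TripAP.Esymm

/-!
# Integers in `(M, 2 M]` prime to a set of primes: lower bound beyond the expected density
-/

set_option autoImplicit false

namespace Pool.Agent.Helper27.TripAP

open Finset

theorem T_eq (m : ℕ) (s : Finset ℕ) :
    T m s = ∑ t ∈ s.powerset.filter (fun t => t.card ≤ m), (-1) ^ t.card * ∏ p ∈ t, (1 / (p : ℝ)) := by
  have h1 : ∀ t ∈ s.powerset.filter (fun t => t.card ≤ m), t.card ∈ range (m + 1) := by
    intro t ht
    rw [mem_filter] at ht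
    rw [mem_range]
    omega
  rw [← sum_fiberwise_of_maps_to h1]
  unfold T E
  refine sum_congr rfl fun j hj => ?_
  rw [mem_range] at hj
  have h2 : (s.powerset.filter (fun t => t.card ≤ m)).filter (fun t => t.card = j) =
      powersetCard j s := by
    ext t
    simp only [mem_filter, mem_powerset, mem_powersetCard]
    constructor
    · rintro ⟨⟨h, -⟩, h'⟩; exact ⟨h, h'⟩
    · rintro ⟨h, h'⟩; exact ⟨⟨h, by omega⟩, h'⟩
  rw [h2, mul_sum]
  refine sum_congr rfl fun t ht => ?_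
  rw [(mem_powersetCard.1 ht).2]

/-- number of multiples in `(M, 2 M]` -/
theorem card_mult (M e : ℕ) (he : 0 < e) :
    |((((Ioc M (2 * M)).filter (fun l => e ∣ l)).card : ℝ)) - M * (1 / (e : ℝ))| ≤ 1 := by
  have h1 : ((Ioc M (2 * M)).filter (fun l => e ∣ l)).card = 2 * M / e - M / e := by
    have := Nat.Ioc_filter_dvd_card_eq_div (2 * M) e
    have h2 := Nat.Ioc_filter_dvd_card_eq_div M e
    have h3 : (Ioc 0 (2 * M)).filter (fun l => e ∣ l) =
        (Ioc 0 M).filter (fun l => e ∣ l) ∪ (Ioc M (2 * M)).filter (fun l => e ∣ l) := by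
      ext l
      simp only [mem_filter, mem_union, mem_Ioc]
      omega
    have h4 : Disjoint ((Ioc 0 M).filter (fun l => e ∣ l))
        ((Ioc M (2 * M)).filter (fun l => e ∣ l)) := by
      rw [disjoint_left]
      intro l
      simp only [mem_filter, mem_Ioc]
      omega
    rw [h3, card_union_of_disjoint h4] at this
    omega
  rw [h1]
  have he' : (0 : ℝ) < e := by exact_mod_cast he
  have h2 : M / e ≤ 2 * M / e := Nat.div_le_div_right (by omega)
  rw [Nat.cast_sub h2]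
  have a1 : ((M / e : ℕ) : ℝ) ≤ M / e := Nat.cast_div_le
  have a2 : (M : ℝ) / e - 1 < ((M / e : ℕ) : ℝ) := by
    have : (M : ℝ) < e * ((M / e : ℕ) + 1 : ℝ) := by
      have h := Nat.lt_mul_div_succ M he
      exact_mod_cast h
    rw [sub_lt_iff_lt_add, div_lt_iff₀ he']
    linarith
  have b1 : ((2 * M / e : ℕ) : ℝ) ≤ 2 * M / e := by
    have := @Nat.cast_div_le ℝ _ _ _ (2 * M) e
    push_cast at this
    exact this
  have b2 : (2 * M : ℝ) / e - 1 < ((2 * M / e : ℕ) : ℝ) := by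
    have : (2 * M : ℝ) < e * ((2 * M / e : ℕ) + 1 : ℝ) := by
      have h := Nat.lt_mul_div_succ (2 * M) he
      exact_mod_cast h
    rw [sub_lt_iff_lt_add, div_lt_iff₀ he']
    linarith
  have e1 : (M : ℝ) * (1 / e) = M / e := by ring
  have e2 : (2 * M : ℝ) / e = 2 * (M / e) := by ring
  rw [e1, abs_le]
  rw [e2] at b1 b2
  constructor <;> linarith

theorem prod_primes_dvd_iff (t : Finset ℕ) (hp : ∀ p ∈ t, p.Prime) (l : ℕ) :
    (∏ p ∈ t, p) ∣ l ↔ ∀ p ∈ t, p ∣ l := by
  constructor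
  · intro h p hpt
    exact (dvd_prod_of_mem _ hpt).trans h
  · intro h
    exact Finset.prod_primes_dvd l (fun p hpt => (hp p hpt).prime) h

theorem card_small_sets (s : Finset ℕ) (hp : ∀ p ∈ s, p.Prime) (m z : ℕ) (hz : 1 ≤ z)
    (hyz : ∀ p ∈ s, p ≤ z) : (s.powerset.filter (fun t => t.card ≤ m)).card ≤ z ^ m := by
  have h1 : (s.powerset.filter (fun t => t.card ≤ m)).card ≤ (Icc 1 (z ^ m)).card := by
    refine card_le_card_of_injOn (fun t => ∏ p ∈ t, p) ?_ ?_
    · intro t ht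
      rw [mem_coe, mem_filter, mem_powerset] at ht
      rw [mem_coe, mem_Icc]
      constructor
      · exact Nat.one_le_iff_ne_zero.2 (prod_ne_zero_iff.2 fun p hpt => (hp p (ht.1 hpt)).ne_zero)
      · calc ∏ p ∈ t, p ≤ z ^ t.card := prod_le_pow_card _ _ _ fun p hpt => hyz p (ht.1 hpt)
          _ ≤ z ^ m := Nat.pow_le_pow_right hz ht.2
    · intro t ht t' ht' h
      rw [mem_coe, mem_filter, mem_powerset] at ht ht'
      have e1 := Nat.primeFactors_prod fun p hpt => hp p (ht.1 hpt)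
      have e2 := Nat.primeFactors_prod fun p hpt => hp p (ht'.1 hpt)
      have h' : ∏ p ∈ t, p = ∏ p ∈ t', p := h
      rw [← e1, ← e2, h']
  simpa using h1

theorem sieve_identity (s : Finset ℕ) (hp : ∀ p ∈ s, p.Prime) (M : ℕ) :
    ((((Ioc M (2 * M)).filter (fun l => ∀ p ∈ s, ¬ p ∣ l)).card : ℝ)) =
      ∑ t ∈ s.powerset, (-1) ^ t.card *
        ((((Ioc M (2 * M)).filter (fun l => (∏ p ∈ t, p) ∣ l)).card : ℝ)) := by
  have h1 : ∀ l : ℕ, (if ∀ p ∈ s, ¬ p ∣ l then (1 : ℝ) else 0) =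
      ∑ t ∈ s.powerset, if (∏ p ∈ t, p) ∣ l then (-1) ^ t.card else 0 := by
    intro l
    have h2 : (∑ t ∈ s.powerset, if (∏ p ∈ t, p) ∣ l then (-1 : ℝ) ^ t.card else 0) =
        ∑ t ∈ (s.filter (fun p => p ∣ l)).powerset, (-1 : ℝ) ^ t.card := by
      rw [← sum_filter]
      refine sum_congr ?_ fun _ _ => rfl
      ext t
      simp only [mem_filter, mem_powerset]
      constructor
      · rintro ⟨hts, hdv⟩ p hpt
        rw [mem_filter]
        exact ⟨hts hpt, (prod_primes_dvd_iff t (fun p hpt => hp p (hts hpt)) l).1 hdv p hpt⟩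
      · intro h
        have hts : t ⊆ s := fun p hpt => (mem_filter.1 (h hpt)).1
        exact ⟨hts, (prod_primes_dvd_iff t (fun p hpt => hp p (hts hpt)) l).2
          fun p hpt => (mem_filter.1 (h hpt)).2⟩
    rw [h2]
    have h3 := @Finset.sum_powerset_neg_one_pow_card ℕ _ (s.filter (fun p => p ∣ l))
    have h4 : (∑ t ∈ (s.filter (fun p => p ∣ l)).powerset, (-1 : ℝ) ^ t.card) =
        ((∑ t ∈ (s.filter (fun p => p ∣ l)).powerset, (-1 : ℤ) ^ t.card : ℤ) : ℝ) := by
      push_cast; rfl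
    rw [h4, h3]
    have h5 : (s.filter (fun p => p ∣ l) = ∅) ↔ ∀ p ∈ s, ¬ p ∣ l := by
      rw [filter_eq_empty_iff]
    by_cases h : ∀ p ∈ s, ¬ p ∣ l
    · rw [if_pos h, if_pos (h5.2 h)]; simp
    · rw [if_neg h, if_neg fun h' => h (h5.1 h')]; simp
  rw [card_filter]
  push_cast
  simp only [h1]
  rw [sum_comm]
  refine sum_congr rfl fun t _ => ?_
  rw [card_filter]
  push_cast
  rw [mul_sum]
  refine sum_congr rfl fun l _ => ?_
  split_ifs <;> simp

/-- The lower bound. -/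
theorem sieve_lower (s : Finset ℕ) (hp : ∀ p ∈ s, p.Prime) (m M y z : ℕ) (hm : Even m)
    (hyz : ∀ p ∈ s, y < p ∧ p ≤ z) (hz : 1 ≤ z) (hM : 2 * M ≤ y ^ (m + 1)) :
    (M : ℝ) * K s * (1 + E (m + 1) s) - (z : ℝ) ^ m ≤
      (((Ioc M (2 * M)).filter (fun l => ∀ p ∈ s, ¬ p ∣ l)).card : ℝ) := by
  rw [sieve_identity s hp M]
  have hsplit : ∑ t ∈ s.powerset, (-1) ^ t.card *
      ((((Ioc M (2 * M)).filter (fun l => (∏ p ∈ t, p) ∣ l)).card : ℝ)) =
      ∑ t ∈ s.powerset.filter (fun t => t.card ≤ m), (-1) ^ t.card *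
      ((((Ioc M (2 * M)).filter (fun l => (∏ p ∈ t, p) ∣ l)).card : ℝ)) := by
    rw [sum_filter]
    refine sum_congr rfl fun t ht => ?_
    rw [mem_powerset] at ht
    split_ifs with h
    · rfl
    · push Not at h
      have hc : m + 1 ≤ t.card := h
      have h1 : 2 * M < ∏ p ∈ t, p := by
        have hne : t.Nonempty := by
          rw [← card_pos]; omega
        have hz0 : 2 * M < (y + 1) ^ (m + 1) :=
          lt_of_le_of_lt hM (Nat.pow_lt_pow_left (by omega) (by omega))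
        calc 2 * M < (y + 1) ^ (m + 1) := hz0
          _ ≤ (y + 1) ^ t.card := Nat.pow_le_pow_right (by omega) hc
          _ ≤ ∏ p ∈ t, p := pow_card_le_prod _ _ _ fun p hpt => (hyz p (ht hpt)).1
      have h2 : (Ioc M (2 * M)).filter (fun l => (∏ p ∈ t, p) ∣ l) = ∅ := by
        rw [filter_eq_empty_iff]
        intro l hl hdv
        rw [mem_Ioc] at hl
        have := Nat.le_of_dvd (by omega) hdv
        omega
      rw [h2]
      simp
  rw [hsplit]
  have hT := T_eq m s
  have herr := T_error s m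
  rw [hm.neg_one_pow, one_mul] at herr
  have hcard := card_small_sets s hp m z hz fun p hps => (hyz p hps).2
  have hmain : (M : ℝ) * T m s - ((s.powerset.filter (fun t => t.card ≤ m)).card : ℝ) ≤
      ∑ t ∈ s.powerset.filter (fun t => t.card ≤ m), (-1) ^ t.card *
      ((((Ioc M (2 * M)).filter (fun l => (∏ p ∈ t, p) ∣ l)).card : ℝ)) := by
    rw [hT, mul_sum]
    have h1 : ((s.powerset.filter (fun t => t.card ≤ m)).card : ℝ) =
        ∑ t ∈ s.powerset.filter (fun t => t.card ≤ m), (1 : ℝ) := by simp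
    rw [h1, ← sum_sub_distrib]
    refine sum_le_sum fun t ht => ?_
    rw [mem_filter, mem_powerset] at ht
    have hpos : 0 < ∏ p ∈ t, p :=
      Nat.pos_of_ne_zero (prod_ne_zero_iff.2 fun p hpt => (hp p (ht.1 hpt)).ne_zero)
    have h2 := card_mult M (∏ p ∈ t, p) hpos
    have h3 : ∏ p ∈ t, (1 / (p : ℝ)) = 1 / ((∏ p ∈ t, p : ℕ) : ℝ) := by
      push_cast
      rw [prod_div_distrib]
      simp
    rw [h3]
    rcases neg_one_pow_eq_or ℝ t.card with h | h
    · rw [h]
      rw [abs_le] at h2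
      linarith [h2.1]
    · rw [h]
      rw [abs_le] at h2
      linarith [h2.2]
  have hcard' : ((s.powerset.filter (fun t => t.card ≤ m)).card : ℝ) ≤ (z : ℝ) ^ m := by
    exact_mod_cast hcard
  have hM0 : (0 : ℝ) ≤ M := Nat.cast_nonneg M
  have h5 : (M : ℝ) * (K s * (1 + E (m + 1) s)) ≤ M * T m s :=
    mul_le_mul_of_nonneg_left (by linarith) hM0
  linarith

end Pool.Agent.Helper27.TripAP
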