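import Mathlib
import Pool.Agent.Helper27.TripAP.Defs
import Pool.Agent.Helper27.TripAP.Esymm
import Pool.Agent.Helper27.TripAP.Sieve
import Pool.Agent.Helper27.TripAP.Crt
import Pool.Agent.Helper27.TripAP.Prog
import Pool.Agent.Helper27.TripAP.LocB

/-!
# The matrix of progressions
-/

set_option autoImplicit false

namespace Pool.Agent.Helper27.TripAP

open Finset

open Classical in
/-- The bad rows. -/
theorem bad_bound {M z F : ℕ} (hz : 1 ≤ z) (hF : F ≠ 0) :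
    (((Ioc M (2 * M)).filter (fun l => ∃ p, p.Prime ∧ z < p ∧ p ∣ l ∧ p ∣ F)).card : ℝ) ≤
      ((F.primeFactors.filter (fun p => z < p)).card : ℝ) * ((M : ℝ) / z + 1) := by
  classical
  set T := F.primeFactors.filter (fun p => z < p) with hT
  have h1 : (Ioc M (2 * M)).filter (fun l => ∃ p, p.Prime ∧ z < p ∧ p ∣ l ∧ p ∣ F) ⊆
      T.biUnion (fun p => (Ioc M (2 * M)).filter (fun l => p ∣ l)) := by
    intro l hl
    rw [mem_filter] at hl
    obtain ⟨hl1, p, hp, hzp, hpl, hpF⟩ := hl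
    rw [mem_biUnion]
    refine ⟨p, ?_, mem_filter.2 ⟨hl1, hpl⟩⟩
    rw [hT, mem_filter]
    exact ⟨Nat.mem_primeFactors.2 ⟨hp, hpF, hF⟩, hzp⟩
  have h2 : (((Ioc M (2 * M)).filter (fun l => ∃ p, p.Prime ∧ z < p ∧ p ∣ l ∧ p ∣ F)).card : ℝ) ≤
      ∑ p ∈ T, (((Ioc M (2 * M)).filter (fun l => p ∣ l)).card : ℝ) := by
    exact_mod_cast (card_le_card h1).trans card_biUnion_le
  refine h2.trans ?_
  calc ∑ p ∈ T, (((Ioc M (2 * M)).filter (fun l => p ∣ l)).card : ℝ)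
      ≤ ∑ _p ∈ T, ((M : ℝ) / z + 1) := by
        refine sum_le_sum fun p hp => ?_
        rw [hT, mem_filter] at hp
        have hp0 : 0 < p := by omega
        have h3 := card_mult M p hp0
        rw [abs_le] at h3
        have hz0 : (0 : ℝ) < z := by exact_mod_cast hz
        have h4 : (z : ℝ) ≤ p := by exact_mod_cast hp.2.le
        have h5 : (M : ℝ) * (1 / (p : ℝ)) ≤ M / z := by
          rw [mul_one_div]
          exact div_le_div_of_nonneg_left (Nat.cast_nonneg M) hz0 h4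
        linarith [h3.2]
    _ = (T.card : ℝ) * ((M : ℝ) / z + 1) := by rw [sum_const, nsmul_eq_mul]

theorem swap_sums (u a W Q M R : ℕ) (𝒟 : Finset ℕ) :
    ∑ d ∈ 𝒟, ∑ r ∈ Ioc R (2 * R),
      ((Ioc M (2 * M)).filter (fun l => IsTrip u (a + l * (W * (d + r * Q))))).card =
    ∑ l ∈ Ioc M (2 * M), ∑ d ∈ 𝒟,
      ((Ioc R (2 * R)).filter (fun r => IsTrip u (a + l * W * d + r * (l * (W * Q))))).card := by
  simp only [card_filter]
  rw [sum_comm (s := Ioc M (2 * M)) (t := 𝒟)]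
  refine sum_congr rfl fun d _ => ?_
  rw [sum_comm (s := Ioc M (2 * M)) (t := Ioc R (2 * R))]
  refine sum_congr rfl fun r _ => sum_congr rfl fun l _ => ?_
  have : a + l * (W * (d + r * Q)) = a + l * W * d + r * (l * (W * Q)) := by ring
  rw [this]

/-- the data of the matrix -/
structure Data where
  D : ℝ
  u : ℕ
  A : ℕ
  x : ℕ
  c : ℝ
  ε : ℝ
  L : ℝ
  L' : ℝ
  y : ℕ
  z : ℕ
  a : ℕ
  M : ℕ
  R : ℕ
  S : Finset ℕ
  s : Finset ℕ
  hD : 0 < D
  hu : u = 2 ∨ u = 4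
  hc0 : 0 ≤ c
  hc1 : c ≤ 1
  hε : 0 < ε
  hL : L = Real.log x
  hL' : L' = Real.log x - Real.log 16
  hpos : 0 < L'
  hy : 6 ≤ y
  hz : y ≤ z
  hS : ∀ p : ℕ, p ∈ S ↔ p.Prime ∧ p ≤ z
  hs : ∀ p : ℕ, p ∈ s ↔ p.Prime ∧ y < p ∧ p ≤ z
  haP : a < ∏ p ∈ S, p
  has : ∀ p ∈ s, p ∣ a
  haS : ∀ p ∈ S, p ∉ s → ¬ p ∣ a * (a + u) * (a + 6)
  hM1 : 1 ≤ M
  hR1 : 1 ≤ R
  hx1 : 8 * (M * (∏ p ∈ S, p) * R) ≤ x
  hx2 : x ≤ 16 * (M * (∏ p ∈ S, p) * R)
  hMA : L ^ A ≤ M
  hRA : L ^ A ≤ R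
  hzL : 3 * L * (1 + ε) ≤ ε * (z * Real.log z)
  hG : Good D u A c x

namespace Data

variable (X : Data)

def Q : ℕ := ∏ p ∈ X.s, p
def W : ℕ := ∏ p ∈ X.S \ X.s, p
def P : ℕ := ∏ p ∈ X.S, p
noncomputable def rowX : ℝ := (1 + X.c) * (2 * X.M + 2) / X.L' ^ 3 - (1 - X.c) * X.M / X.L ^ 3
noncomputable def colX : ℝ := (1 - X.c) * (2 * X.R) / X.L ^ 3 - (1 + X.c) * (X.R + 2) / X.L' ^ 3

theorem sub : X.s ⊆ X.S := by
  intro p hp
  rw [X.hs] at hp
  rw [X.hS]
  exact ⟨hp.1, hp.2.2⟩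

theorem primeS {p : ℕ} (hp : p ∈ X.S) : p.Prime := ((X.hS p).1 hp).1

theorem primes {p : ℕ} (hp : p ∈ X.s) : p.Prime := ((X.hs p).1 hp).1

theorem seven {p : ℕ} (hp : p ∈ X.s) : 7 ≤ p := by
  have := (X.hs p).1 hp
  have := X.hy
  omega

theorem WQ : X.W * X.Q = X.P := by
  unfold W Q P
  exact prod_sdiff X.sub

theorem Qpos : 0 < X.Q := Nat.pos_of_ne_zero (prod_ne_zero_iff.2 fun _ hq => (X.primes hq).ne_zero)

theorem Wpos : 0 < X.W :=
  Nat.pos_of_ne_zero (prod_ne_zero_iff.2 fun _ hq => (X.primeS (mem_sdiff.1 hq).1).ne_zero)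

theorem Ppos : 0 < X.P := Nat.pos_of_ne_zero (prod_ne_zero_iff.2 fun _ hq => (X.primeS hq).ne_zero)

theorem not_dvd_W {p : ℕ} (hp : p ∈ X.s) : ¬ p ∣ X.W := by
  intro h
  unfold W at h
  rw [(X.primes hp).prime.dvd_finsetProd_iff] at h
  obtain ⟨q, hq, hpq⟩ := h
  rw [mem_sdiff] at hq
  rw [Nat.prime_dvd_prime_iff_eq (X.primes hp) (X.primeS hq.1)] at hpq
  rw [hpq] at hp
  exact hq.2 hp

theorem LL : X.L' ≤ X.L := by
  rw [X.hL, X.hL']
  have : 0 < Real.log 16 := Real.log_pos (by norm_num)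
  linarith

theorem Lpos : 0 < X.L := lt_of_lt_of_le X.hpos X.LL

theorem rowX_nonneg : 0 ≤ X.rowX := by
  unfold rowX
  have h1 : X.L' ^ 3 ≤ X.L ^ 3 := pow_le_pow_left₀ X.hpos.le X.LL 3
  have h2 : 0 < X.L' ^ 3 := by have := X.hpos; positivity
  have h3 : (0 : ℝ) ≤ X.M := Nat.cast_nonneg _
  have hc0 := X.hc0
  have hc1 := X.hc1
  have h4 : (1 - X.c) * X.M / X.L ^ 3 ≤ (1 - X.c) * X.M / X.L' ^ 3 :=
    div_le_div_of_nonneg_left (mul_nonneg (by linarith) h3) h2 h1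
  have h5 : (1 - X.c) * X.M / X.L' ^ 3 ≤ (1 + X.c) * (2 * X.M + 2) / X.L' ^ 3 := by
    apply div_le_div_of_nonneg_right _ h2.le
    nlinarith
  linarith

/-- the row bound -/
theorem row {d r : ℕ} (hd : d < X.Q) (hd' : ∀ p ∈ X.s, ¬ p ∣ d) (hr : r ∈ Ioc X.R (2 * X.R)) :
    (((Ioc X.M (2 * X.M)).filter (fun l => IsTrip X.u (X.a + l * (X.W * (d + r * X.Q))))).card : ℝ)
      ≤ X.D * ((1 + X.ε) * loc X.u X.W) * X.rowX := by
  rw [mem_Ioc] at hr
  set q := X.W * (d + r * X.Q) with hq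
  have hWQ := X.WQ
  have hQ := X.Qpos
  have hW := X.Wpos
  have hP := X.Ppos
  have hM1 := X.hM1
  have hR1 := X.hR1
  have hqlow : X.P * X.R ≤ q := by
    calc X.P * X.R = X.W * (X.R * X.Q) := by rw [← hWQ]; ring
      _ ≤ X.W * (d + r * X.Q) := by
        apply Nat.mul_le_mul_left
        have : X.R * X.Q ≤ r * X.Q := Nat.mul_le_mul_right _ (by omega)
        omega
  have hqup : q ≤ X.P * (2 * X.R + 1) := by
    calc q ≤ X.W * (X.Q + (2 * X.R) * X.Q) := by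
          apply Nat.mul_le_mul_left
          have : r * X.Q ≤ (2 * X.R) * X.Q := Nat.mul_le_mul_right _ hr.2
          omega
      _ = X.P * (2 * X.R + 1) := by rw [← hWQ]; ring
  have hPq : X.P ≤ q := le_trans (Nat.le_mul_of_pos_right _ hR1) hqlow
  have hq1 : 1 ≤ q := le_trans hP hPq
  have haq : X.a < q := lt_of_lt_of_le X.haP hPq
  have hx1 : 8 * (X.M * X.P * X.R) ≤ X.x := X.hx1
  have hx2 : X.x ≤ 16 * (X.M * X.P * X.R) := X.hx2
  have hy1 : X.x ≤ 16 * (X.a + X.M * q) := by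
    have : X.M * X.P * X.R ≤ X.M * q := by
      rw [mul_assoc]; exact Nat.mul_le_mul_left _ hqlow
    omega
  have hy2 : X.a + (2 * X.M) * q ≤ X.x := by
    have h1 : (2 * X.M) * q ≤ (2 * X.M) * (X.P * (2 * X.R + 1)) := Nat.mul_le_mul_left _ hqup
    have h2 : X.a < X.P := X.haP
    have h3 : X.P + (2 * X.M) * (X.P * (2 * X.R + 1)) ≤ 8 * (X.M * X.P * X.R) := by
      have h4 : (1 + 2 * X.M * (2 * X.R + 1)) ≤ 8 * (X.M * X.R) := by
        have : X.M ≤ X.M * X.R := Nat.le_mul_of_pos_right _ hR1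
        have : 2 * X.M * (2 * X.R + 1) = 4 * (X.M * X.R) + 2 * X.M := by ring
        omega
      calc X.P + (2 * X.M) * (X.P * (2 * X.R + 1)) = X.P * (1 + 2 * X.M * (2 * X.R + 1)) := by ring
        _ ≤ X.P * (8 * (X.M * X.R)) := Nat.mul_le_mul_left _ h4
        _ = _ := by ring
    omega
  have hloc : loc X.u q ≤ (1 + X.ε) * loc X.u X.W := by
    have he : d + r * X.Q ≠ 0 := by
      have : 0 < r * X.Q := Nat.mul_pos (by omega) hQ
      omega
    refine loc_row_le X.hu (z := X.z) (by have := X.hy; have := X.hz; omega) hW.ne' he ?_ X.hε ?_ X.hzL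
    · intro p hp hpe
      by_cases hpz : p ≤ X.z
      · left
        have hpS : p ∈ X.S := (X.hS p).2 ⟨hp, hpz⟩
        have hps : p ∉ X.s := by
          intro hps
          have h1 : p ∣ r * X.Q := Dvd.dvd.mul_left (dvd_prod_of_mem _ hps) r
          exact hd' p hps ((Nat.dvd_add_left h1).1 hpe)
        exact dvd_prod_of_mem _ (mem_sdiff.2 ⟨hpS, hps⟩)
      · right; omega
    · rw [X.hL]
      apply Real.log_le_log
      · have : 0 < d + r * X.Q := Nat.pos_of_ne_zero he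
        exact_mod_cast this
      · have h1 : d + r * X.Q ≤ q := Nat.le_mul_of_pos_left _ hW
        have h2 : q ≤ (2 * X.M) * q := Nat.le_mul_of_pos_left _ (by omega)
        have h3 : d + r * X.Q ≤ X.x := by omega
        exact_mod_cast h3
  have hX := X.rowX_nonneg
  have hlW := loc_pos X.hu X.W
  have hU : 0 ≤ X.D * ((1 + X.ε) * loc X.u X.W) * X.rowX := by
    have := X.hD
    have := X.hε
    positivity
  by_cases hcop : Nat.Coprime (X.a * (X.a + X.u) * (X.a + 6)) q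
  · have h1 := (prog_bounds X.hD X.hu X.hc0 X.hc1 X.hG X.hL X.hL' X.hpos hq1 (by omega) hy1 hy2
      X.hMA hcop).1
    refine h1.trans ?_
    have : (1 + X.c) * (2 * (X.M : ℝ) + 2) / X.L' ^ 3 - (1 - X.c) * X.M / X.L ^ 3 = X.rowX := rfl
    rw [this]
    apply mul_le_mul_of_nonneg_right _ hX
    exact mul_le_mul_of_nonneg_left hloc X.hD.le
  · rw [Nat.Prime.not_coprime_iff_dvd] at hcop
    obtain ⟨p, hp, hpF, hpq⟩ := hcop
    have h1 : (Ioc X.M (2 * X.M)).filter (fun l => IsTrip X.u (X.a + l * q)) = ∅ := by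
      rw [filter_eq_empty_iff]
      intro l hl
      rw [mem_Ioc] at hl
      apply no_trip hp hpF hpq
      have h2 : p ≤ q := Nat.le_of_dvd hq1 hpq
      have h3 : 2 * q ≤ l * q := Nat.mul_le_mul_right q (by omega)
      omega
    rw [h1]
    simpa using hU

/-- the column bound -/
theorem col {l d : ℕ} (hl : l ∈ Ioc X.M (2 * X.M)) (hls : ∀ p ∈ X.s, ¬ p ∣ l)
    (hlb : ¬ ∃ p, p.Prime ∧ X.z < p ∧ p ∣ l ∧ p ∣ X.a * (X.a + X.u) * (X.a + 6)) (hd : d < X.Q)
    (hd' : ∀ p ∈ X.s, ¬ p ∣ d ∧ ¬ p ∣ l * X.W * d + X.u ∧ ¬ p ∣ l * X.W * d + 6)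
    (hX : 0 ≤ X.colX) :
    X.D * (loc X.u X.W * ∏ p ∈ X.s, ((p : ℝ) / (p - 3))) * X.colX ≤
    (((Ioc X.R (2 * X.R)).filter
      (fun r => IsTrip X.u (X.a + l * X.W * d + r * (l * (X.W * X.Q))))).card : ℝ) := by
  rw [mem_Ioc] at hl
  rw [X.WQ]
  have hWQ := X.WQ
  have hQ := X.Qpos
  have hW := X.Wpos
  have hP := X.Ppos
  have hM1 := X.hM1
  have hR1 := X.hR1
  set b := X.a + l * X.W * d with hb
  set q := l * X.P with hq
  have hl0 : 0 < l := by omega
  have hPq : X.P ≤ q := Nat.le_mul_of_pos_left _ hl0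
  have hq1 : 1 ≤ q := le_trans hP hPq
  have hbq : b ≤ 2 * q := by
    have h1 : X.a < X.P := X.haP
    have h2 : l * X.W * d ≤ q := by
      rw [hq, ← hWQ, mul_assoc]
      exact Nat.mul_le_mul_left _ (Nat.mul_le_mul_left _ hd.le)
    omega
  have hMq : X.M * X.P ≤ q := Nat.mul_le_mul_right _ hl.1.le
  have hqM : q ≤ 2 * (X.M * X.P) := by
    rw [hq, ← mul_assoc]
    exact Nat.mul_le_mul_right _ hl.2
  have hx1 : 8 * (X.M * X.P * X.R) ≤ X.x := X.hx1
  have hx2 : X.x ≤ 16 * (X.M * X.P * X.R) := X.hx2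
  have hy1 : X.x ≤ 16 * (b + X.R * q) := by
    have : X.M * X.P * X.R ≤ X.R * q := by
      rw [mul_comm]; exact Nat.mul_le_mul_left _ hMq
    omega
  have hy2 : b + (2 * X.R) * q ≤ X.x := by
    have h1 : b + (2 * X.R) * q ≤ (2 * X.R + 2) * q := by
      have : (2 * X.R + 2) * q = (2 * X.R) * q + 2 * q := by ring
      omega
    have h2 : (2 * X.R + 2) * q ≤ (2 * X.R + 2) * (2 * (X.M * X.P)) := Nat.mul_le_mul_left _ hqM
    have h3 : (2 * X.R + 2) * (2 * (X.M * X.P)) ≤ 8 * (X.M * X.P * X.R) := by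
      calc (2 * X.R + 2) * (2 * (X.M * X.P)) ≤ (4 * X.R) * (2 * (X.M * X.P)) :=
            Nat.mul_le_mul_right _ (by omega)
        _ = _ := by ring
    omega
  have hcop : Nat.Coprime (b * (b + X.u) * (b + 6)) q := by
    by_contra hcon
    rw [Nat.Prime.not_coprime_iff_dvd] at hcon
    obtain ⟨p, hp, hpF, hpq⟩ := hcon
    have hbl : l * (X.W * d) = l * X.W * d := by ring
    by_cases hps : p ∈ X.s
    · have hpa := X.has p hps
      obtain ⟨h1, h2, h3⟩ := hd' p hps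
      rw [hp.dvd_mul, hp.dvd_mul] at hpF
      rcases hpF with (h | h) | h
      · have h4 : p ∣ l * X.W * d := (Nat.dvd_add_right hpa).1 h
        rw [hp.dvd_mul, hp.dvd_mul] at h4
        rcases h4 with (h4 | h4) | h4
        · exact hls p hps h4
        · exact X.not_dvd_W hps h4
        · exact h1 h4
      · have e : b + X.u = X.a + (l * X.W * d + X.u) := by rw [hb]; ring
        rw [e] at h
        exact h2 ((Nat.dvd_add_right hpa).1 h)
      · have e : b + 6 = X.a + (l * X.W * d + 6) := by rw [hb]; ring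
        rw [e] at h
        exact h3 ((Nat.dvd_add_right hpa).1 h)
    · -- then `p` divides `l W`
      have hlW : p ∣ l * X.W := by
        rw [hq, ← hWQ, ← mul_assoc, hp.dvd_mul] at hpq
        rcases hpq with h | h
        · exact h
        · exfalso
          unfold Q at h
          rw [hp.prime.dvd_finsetProd_iff] at h
          obtain ⟨p', hp', hpp'⟩ := h
          rw [Nat.prime_dvd_prime_iff_eq hp (X.primes hp')] at hpp'
          rw [hpp'] at hps
          exact hps hp'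
      have hlWd : p ∣ l * X.W * d := Dvd.dvd.mul_right hlW d
      have hFa : p ∣ X.a * (X.a + X.u) * (X.a + 6) := by
        rw [hp.dvd_mul, hp.dvd_mul] at hpF
        rw [hp.dvd_mul, hp.dvd_mul]
        rcases hpF with (h | h) | h
        · exact Or.inl (Or.inl ((Nat.dvd_add_left hlWd).1 h))
        · have e : b + X.u = X.a + X.u + l * X.W * d := by rw [hb]; ring
          rw [e] at h
          exact Or.inl (Or.inr ((Nat.dvd_add_left hlWd).1 h))
        · have e : b + 6 = X.a + 6 + l * X.W * d := by rw [hb]; ring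
          rw [e] at h
          exact Or.inr ((Nat.dvd_add_left hlWd).1 h)
      by_cases hpz : p ≤ X.z
      · exact X.haS p ((X.hS p).2 ⟨hp, hpz⟩) hps hFa
      · have hpl : p ∣ l := by
          rw [hp.dvd_mul] at hlW
          rcases hlW with h | h
          · exact h
          · exfalso
            unfold W at h
            rw [hp.prime.dvd_finsetProd_iff] at h
            obtain ⟨p', hp', hpp'⟩ := h
            rw [mem_sdiff] at hp'
            rw [Nat.prime_dvd_prime_iff_eq hp (X.primeS hp'.1)] at hpp'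
            rw [← hpp'] at hp'
            have := ((X.hS p).1 hp'.1).2
            omega
        exact hlb ⟨p, hp, by omega, hpl, hFa⟩
  have h1 := (prog_bounds X.hD X.hu X.hc0 X.hc1 X.hG X.hL X.hL' X.hpos hq1 hbq hy1 hy2
    X.hRA hcop).2
  refine le_trans ?_ h1
  have : (1 - X.c) * (2 * (X.R : ℝ)) / X.L ^ 3 - (1 + X.c) * (X.R + 2) / X.L' ^ 3 = X.colX := rfl
  rw [this]
  apply mul_le_mul_of_nonneg_right _ hX
  apply mul_le_mul_of_nonneg_left _ X.hD.le
  exact loc_col X.hu X.S X.s X.sub (fun p hp => X.primeS hp) (fun p hp => X.seven hp) hl0.ne'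

theorem card_D :
    ((((range X.Q).filter (fun d => ∀ p ∈ X.s, ¬ p ∣ d)).card : ℕ) : ℝ) = X.Q * K X.s := by
  have h1 := crt_count X.s (fun p hp => X.primes hp) (fun p d => ¬ p ∣ d) (by
    intro p n
    rw [Nat.dvd_mod_iff (dvd_refl p)])
  unfold Q
  rw [h1]
  push_cast
  unfold K
  rw [← prod_mul_distrib]
  refine prod_congr rfl fun p hp => ?_
  rw [count_units (X.primes hp)]
  have h2 := (X.primes hp).one_le
  have h3 : (p : ℝ) ≠ 0 := by
    have := (X.primes hp).ne_zero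
    exact_mod_cast this
  push_cast [h2]
  field_simp

theorem card_Dl {l : ℕ} (hls : ∀ p ∈ X.s, ¬ p ∣ l) :
    ∏ p ∈ X.s, ((p : ℝ) - 3) ≤ ((((range X.Q).filter (fun d => ∀ p ∈ X.s,
      ¬ p ∣ d ∧ ¬ p ∣ l * X.W * d + X.u ∧ ¬ p ∣ l * X.W * d + 6)).card : ℕ) : ℝ) := by
  have hmod : ∀ p n v : ℕ, p ∣ l * X.W * (n % p) + v ↔ p ∣ l * X.W * n + v := by
    intro p n v
    have h1 : l * X.W * (n % p) + v ≡ l * X.W * n + v [MOD p] :=
      ((Nat.mod_modEq n p).mul_left _).add_right v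
    constructor
    · intro h
      exact Nat.modEq_zero_iff_dvd.1 (h1.symm.trans (Nat.modEq_zero_iff_dvd.2 h))
    · intro h
      exact Nat.modEq_zero_iff_dvd.1 (h1.trans (Nat.modEq_zero_iff_dvd.2 h))
  have h1 := crt_count X.s (fun p hp => X.primes hp)
    (fun p d => ¬ p ∣ d ∧ ¬ p ∣ l * X.W * d + X.u ∧ ¬ p ∣ l * X.W * d + 6) (by
    intro p n
    rw [Nat.dvd_mod_iff (dvd_refl p), hmod, hmod])
  unfold Q
  rw [h1]
  push_cast
  refine prod_le_prod ?_ ?_
  · intro p hp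
    have : (7 : ℝ) ≤ p := by exact_mod_cast X.seven hp
    linarith
  · intro p hp
    have h2 := count_three (X.primes hp) (l * X.W) X.u 6 (by
      rw [(X.primes hp).dvd_mul]
      rintro (h | h)
      · exact hls p hp h
      · exact X.not_dvd_W hp h)
    have h3 := X.seven hp
    have h4 : ((p - 3 : ℕ) : ℝ) = (p : ℝ) - 3 := by
      push_cast [show 3 ≤ p by omega]
      ring
    rw [← h4]
    exact_mod_cast h2

open Classical in
/-- The outcome of the double count. -/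
theorem double_count (hX : 0 ≤ X.colX) :
    ((((Ioc X.M (2 * X.M)).filter (fun l => ∀ p ∈ X.s, ¬ p ∣ l)).card : ℝ) -
      (((Ioc X.M (2 * X.M)).filter (fun l => ∃ p, p.Prime ∧ X.z < p ∧ p ∣ l ∧
        p ∣ X.a * (X.a + X.u) * (X.a + 6))).card : ℝ)) * X.colX ≤
      K X.s * X.R * (1 + X.ε) * X.rowX := by
  classical
  set NQ := (Ioc X.M (2 * X.M)).filter (fun l => ∀ p ∈ X.s, ¬ p ∣ l) with hNQ
  set NB := (Ioc X.M (2 * X.M)).filter (fun l => ∃ p, p.Prime ∧ X.z < p ∧ p ∣ l ∧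
        p ∣ X.a * (X.a + X.u) * (X.a + 6)) with hNB
  set 𝒟 := (range X.Q).filter (fun d => ∀ p ∈ X.s, ¬ p ∣ d) with h𝒟
  have hswap := swap_sums X.u X.a X.W X.Q X.M X.R 𝒟
  have hlW := loc_pos X.hu X.W
  have hD := X.hD
  have hQ : (0 : ℝ) < X.Q := by exact_mod_cast X.Qpos
  -- upper bound
  have hup : ((∑ d ∈ 𝒟, ∑ r ∈ Ioc X.R (2 * X.R),
      ((Ioc X.M (2 * X.M)).filter (fun l => IsTrip X.u (X.a + l * (X.W * (d + r * X.Q))))).card : ℕ) : ℝ)
      ≤ (X.Q * K X.s) * (X.R * (X.D * ((1 + X.ε) * loc X.u X.W) * X.rowX)) := by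
    push_cast
    calc ∑ d ∈ 𝒟, ∑ r ∈ Ioc X.R (2 * X.R),
        (((Ioc X.M (2 * X.M)).filter (fun l => IsTrip X.u (X.a + l * (X.W * (d + r * X.Q))))).card : ℝ)
        ≤ ∑ _d ∈ 𝒟, ∑ _r ∈ Ioc X.R (2 * X.R), X.D * ((1 + X.ε) * loc X.u X.W) * X.rowX := by
          refine sum_le_sum fun d hd => sum_le_sum fun r hr => ?_
          rw [h𝒟, mem_filter, mem_range] at hd
          exact X.row hd.1 hd.2 hr
      _ = _ := by
          rw [sum_const, sum_const, nsmul_eq_mul, nsmul_eq_mul, h𝒟, X.card_D, Nat.card_Ioc]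
          congr 2
          have : 2 * X.R - X.R = X.R := by omega
          rw [this]
  -- lower bound
  have hlow : ((NQ \ NB).card : ℝ) * (X.Q * (X.D * loc X.u X.W * X.colX)) ≤
      ((∑ l ∈ Ioc X.M (2 * X.M), ∑ d ∈ 𝒟,
      ((Ioc X.R (2 * X.R)).filter
        (fun r => IsTrip X.u (X.a + l * X.W * d + r * (l * (X.W * X.Q))))).card : ℕ) : ℝ) := by
    push_cast
    have hsub : NQ \ NB ⊆ Ioc X.M (2 * X.M) := fun l hl =>
      (mem_filter.1 (mem_sdiff.1 hl).1).1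
    refine le_trans ?_ (sum_le_sum_of_subset_of_nonneg hsub fun _ _ _ => sum_nonneg fun _ _ =>
      Nat.cast_nonneg _)
    rw [← nsmul_eq_mul]
    refine card_nsmul_le_sum _ _ _ fun l hl => ?_
    rw [mem_sdiff] at hl
    have hl1 := (mem_filter.1 hl.1).1
    have hl2 := (mem_filter.1 hl.1).2
    have hl3 : ¬ ∃ p, p.Prime ∧ X.z < p ∧ p ∣ l ∧ p ∣ X.a * (X.a + X.u) * (X.a + 6) := by
      intro h
      exact hl.2 (mem_filter.2 ⟨hl1, h⟩)
    set 𝒟l := (range X.Q).filter (fun d => ∀ p ∈ X.s,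
      ¬ p ∣ d ∧ ¬ p ∣ l * X.W * d + X.u ∧ ¬ p ∣ l * X.W * d + 6) with h𝒟l
    have hsub2 : 𝒟l ⊆ 𝒟 := by
      intro d hd
      rw [h𝒟l, mem_filter] at hd
      rw [h𝒟, mem_filter]
      exact ⟨hd.1, fun p hp => (hd.2 p hp).1⟩
    refine le_trans ?_ (sum_le_sum_of_subset_of_nonneg hsub2 fun _ _ _ => Nat.cast_nonneg _)
    have h1 : ∀ d ∈ 𝒟l, X.D * (loc X.u X.W * ∏ p ∈ X.s, ((p : ℝ) / (p - 3))) * X.colX ≤
        (((Ioc X.R (2 * X.R)).filter
          (fun r => IsTrip X.u (X.a + l * X.W * d + r * (l * (X.W * X.Q))))).card : ℝ) := by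
      intro d hd
      rw [h𝒟l, mem_filter, mem_range] at hd
      exact X.col hl1 hl2 hl3 hd.1 hd.2 hX
    refine le_trans ?_ (card_nsmul_le_sum _ _ _ h1)
    rw [nsmul_eq_mul]
    have h2 := X.card_Dl hl2
    have h3 : (X.Q : ℝ) = (∏ p ∈ X.s, ((p : ℝ) - 3)) * ∏ p ∈ X.s, ((p : ℝ) / (p - 3)) := by
      rw [← prod_mul_distrib]
      unfold Q
      push_cast
      refine prod_congr rfl fun p hp => ?_
      have : (7 : ℝ) ≤ p := by exact_mod_cast X.seven hp
      have : (p : ℝ) - 3 ≠ 0 := by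
        intro h
        linarith
      field_simp
    have h4 : 0 ≤ ∏ p ∈ X.s, ((p : ℝ) / (p - 3)) := by
      refine prod_nonneg fun p hp => ?_
      have : (7 : ℝ) ≤ p := by exact_mod_cast X.seven hp
      apply div_nonneg <;> linarith
    calc (X.Q : ℝ) * (X.D * loc X.u X.W * X.colX)
        = (∏ p ∈ X.s, ((p : ℝ) - 3)) *
          (X.D * (loc X.u X.W * ∏ p ∈ X.s, ((p : ℝ) / (p - 3))) * X.colX) := by rw [h3]; ring
      _ ≤ _ := by
          apply mul_le_mul_of_nonneg_right h2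
          positivity
  -- conclusion
  rw [hswap] at hup
  have h5 := hlow.trans hup
  have h6 : ((NQ.card : ℝ) - NB.card) ≤ ((NQ \ NB).card : ℝ) := by
    have h7 : NQ.card ≤ (NQ \ NB).card + NB.card := by
      have := card_le_card (show NQ ⊆ (NQ \ NB) ∪ NB by
        intro l hl
        rw [mem_union, mem_sdiff]
        by_cases h : l ∈ NB
        · exact Or.inr h
        · exact Or.inl ⟨hl, h⟩)
      exact this.trans (card_union_le _ _)
    have h8 : (NQ.card : ℝ) ≤ ((NQ \ NB).card : ℝ) + NB.card := by exact_mod_cast h7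
    linarith
  have h7 : 0 < (X.Q : ℝ) * (X.D * loc X.u X.W) := by positivity
  have h8 : (((NQ.card : ℝ) - NB.card) * X.colX) * ((X.Q : ℝ) * (X.D * loc X.u X.W)) ≤
      (K X.s * X.R * (1 + X.ε) * X.rowX) * ((X.Q : ℝ) * (X.D * loc X.u X.W)) := by
    calc (((NQ.card : ℝ) - NB.card) * X.colX) * ((X.Q : ℝ) * (X.D * loc X.u X.W))
        ≤ (((NQ \ NB).card : ℝ) * X.colX) * ((X.Q : ℝ) * (X.D * loc X.u X.W)) :=
          mul_le_mul_of_nonneg_right (mul_le_mul_of_nonneg_right h6 hX) h7.le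
      _ = ((NQ \ NB).card : ℝ) * (X.Q * (X.D * loc X.u X.W * X.colX)) := by ring
      _ ≤ (X.Q * K X.s) * (X.R * (X.D * ((1 + X.ε) * loc X.u X.W) * X.rowX)) := h5
      _ = _ := by ring
  exact le_of_mul_le_mul_right h8 h7

end Data

end Pool.Agent.Helper27.TripAP
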