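import Mathlib
import Pool.Agent.Helper27.TripAP.Matrix
import Pool.Agent.Helper27.TripAP.Blocks

/-!
# Choice of the parameters and conclusion
-/

set_option autoImplicit false

namespace Pool.Agent.Helper27.TripAP

open Finset Filter

theorem inv_cube {c L L' : ℝ} (hL : 0 < L) (hL' : 0 < L') (hLL : L ^ 3 ≤ (1 + c) * L' ^ 3) :
    1 / L' ^ 3 ≤ (1 + c) / L ^ 3 := by
  rw [div_le_div_iff₀ (by positivity) (by positivity), one_mul]
  exact hLL

theorem col_lower {c R L L' : ℝ} (hc : 0 < c) (hR : 0 < R) (hL : 0 < L) (hL' : 0 < L')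
    (hLL : L ^ 3 ≤ (1 + c) * L' ^ 3) (hR2 : 2 ≤ c * R) :
    R * (2 * (1 - c) - (1 + c) ^ 3) / L ^ 3 ≤
      (1 - c) * (2 * R) / L ^ 3 - (1 + c) * (R + 2) / L' ^ 3 := by
  have h1 := inv_cube hL hL' hLL
  have h2 : (1 + c) * (R + 2) / L' ^ 3 ≤ (1 + c) * ((1 + c) * R) * ((1 + c) / L ^ 3) := by
    rw [div_eq_mul_one_div]
    apply mul_le_mul _ h1 (by positivity) (by positivity)
    apply mul_le_mul_of_nonneg_left _ (by linarith)
    linarith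
  have h3 : R * (2 * (1 - c) - (1 + c) ^ 3) / L ^ 3 =
      (1 - c) * (2 * R) / L ^ 3 - (1 + c) * ((1 + c) * R) * ((1 + c) / L ^ 3) := by
    ring
  rw [h3]
  linarith

theorem row_upper {c M L L' : ℝ} (hc : 0 < c) (hM : 0 < M) (hL : 0 < L) (hL' : 0 < L')
    (hLL : L ^ 3 ≤ (1 + c) * L' ^ 3) (hM2 : 2 ≤ c * M) :
    (1 + c) * (2 * M + 2) / L' ^ 3 - (1 - c) * M / L ^ 3 ≤
      M * ((1 + c) ^ 2 * (2 + c) - (1 - c)) / L ^ 3 := by
  have h1 := inv_cube hL hL' hLL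
  have h2 : (1 + c) * (2 * M + 2) / L' ^ 3 ≤ (1 + c) * ((2 + c) * M) * ((1 + c) / L ^ 3) := by
    rw [div_eq_mul_one_div]
    apply mul_le_mul _ h1 (by positivity) (by positivity)
    apply mul_le_mul_of_nonneg_left _ (by linarith)
    linarith
  have h3 : M * ((1 + c) ^ 2 * (2 + c) - (1 - c)) / L ^ 3 =
      (1 + c) * ((2 + c) * M) * ((1 + c) / L ^ 3) - (1 - c) * M / L ^ 3 := by
    ring
  rw [h3]
  linarith

theorem kappa_pos {c : ℝ} (hc : 0 < c) (hc1 : c ≤ 1 / 100) : 0 < 2 * (1 - c) - (1 + c) ^ 3 := by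
  nlinarith [mul_pos hc hc, mul_pos (mul_pos hc hc) hc]

theorem final_contra {η c K M R L L' G : ℝ} (hη0 : 0 < η) (hη1 : η ≤ 1) (hc : c = η / 100)
    (hK : 0 < K) (hM : 0 < M) (hR : 0 < R) (hL : 0 < L) (hL' : 0 < L')
    (hLL : L ^ 3 ≤ (1 + c) * L' ^ 3) (hM2 : 2 ≤ c * M) (hR2 : 2 ≤ c * R)
    (hG : M * K * (1 + η / 2) ≤ G)
    (h : G * ((1 - c) * (2 * R) / L ^ 3 - (1 + c) * (R + 2) / L' ^ 3) ≤
      K * R * (1 + c) * ((1 + c) * (2 * M + 2) / L' ^ 3 - (1 - c) * M / L ^ 3)) : False := by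
  have hc0 : 0 < c := by rw [hc]; positivity
  have hc1 : c ≤ 1 / 100 := by rw [hc]; linarith
  have hη : η = 100 * c := by rw [hc]; ring
  have h1 := col_lower hc0 hR hL hL' hLL hR2
  have h2 := row_upper hc0 hM hL hL' hLL hM2
  have hk := kappa_pos hc0 hc1
  have hL3 : 0 < L ^ 3 := by positivity
  have h3 : 0 ≤ (1 - c) * (2 * R) / L ^ 3 - (1 + c) * (R + 2) / L' ^ 3 := by
    refine le_trans ?_ h1
    positivity
  have h4 : (M * K * (1 + η / 2)) * (R * (2 * (1 - c) - (1 + c) ^ 3) / L ^ 3) ≤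
      K * R * (1 + c) * (M * ((1 + c) ^ 2 * (2 + c) - (1 - c)) / L ^ 3) := by
    calc (M * K * (1 + η / 2)) * (R * (2 * (1 - c) - (1 + c) ^ 3) / L ^ 3)
        ≤ (M * K * (1 + η / 2)) * ((1 - c) * (2 * R) / L ^ 3 - (1 + c) * (R + 2) / L' ^ 3) :=
          mul_le_mul_of_nonneg_left h1 (by positivity)
      _ ≤ G * ((1 - c) * (2 * R) / L ^ 3 - (1 + c) * (R + 2) / L' ^ 3) :=
          mul_le_mul_of_nonneg_right hG h3
      _ ≤ _ := h
      _ ≤ _ := mul_le_mul_of_nonneg_left h2 (by positivity)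
  have h5 : (1 + η / 2) * (2 * (1 - c) - (1 + c) ^ 3) ≤
      (1 + c) * ((1 + c) ^ 2 * (2 + c) - (1 - c)) := by
    have h6 : 0 < M * K * R / L ^ 3 := by positivity
    refine le_of_mul_le_mul_right ?_ h6
    calc (1 + η / 2) * (2 * (1 - c) - (1 + c) ^ 3) * (M * K * R / L ^ 3)
        = (M * K * (1 + η / 2)) * (R * (2 * (1 - c) - (1 + c) ^ 3) / L ^ 3) := by ring
      _ ≤ K * R * (1 + c) * (M * ((1 + c) ^ 2 * (2 + c) - (1 - c)) / L ^ 3) := h4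
      _ = _ := by ring
  rw [hη] at h5
  have hcc : 0 < c ^ 2 := by positivity
  have hc2 : c ^ 2 ≤ c / 100 := by nlinarith
  have hc3 : c ^ 3 ≤ c / 100 := by nlinarith
  have hc4 : c ^ 4 ≤ c / 100 := by nlinarith [mul_pos hcc hcc, mul_pos hcc hc0]
  have hc30 : 0 < c ^ 3 := by positivity
  have hc40 : 0 < c ^ 4 := by positivity
  have e1 : (1 + 100 * c / 2) * (2 * (1 - c) - (1 + c) ^ 3) =
      1 + 45 * c - 253 * c ^ 2 - 151 * c ^ 3 - 50 * c ^ 4 := by ring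
  have e2 : (1 + c) * ((1 + c) ^ 2 * (2 + c) - (1 - c)) =
      1 + 7 * c + 10 * c ^ 2 + 5 * c ^ 3 + c ^ 4 := by ring
  rw [e1, e2] at h5
  linarith

theorem pow_le_two_pow (C : ℝ) (n : ℕ) : ∀ᶠ z : ℕ in atTop, C * (z : ℝ) ^ n ≤ 2 ^ z := by
  have h := tendsto_pow_const_div_const_pow_of_one_lt n (r := (2 : ℝ)) one_lt_two
  have h2 : Tendsto (fun z : ℕ => C * ((z : ℝ) ^ n / 2 ^ z)) atTop (nhds (C * 0)) := h.const_mul C
  rw [mul_zero] at h2
  filter_upwards [h2.eventually (gt_mem_nhds zero_lt_one)] with z hz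
  have h3 : C * ((z : ℝ) ^ n / 2 ^ z) < 1 := hz
  rw [← mul_div_assoc, div_lt_one (by positivity)] at h3
  exact h3.le

theorem log_ge (C : ℝ) : ∀ᶠ z : ℕ in atTop, C ≤ Real.log z :=
  (Real.tendsto_log_atTop.comp tendsto_natCast_atTop_atTop).eventually_ge_atTop C

theorem nat_ge (C : ℝ) : ∀ᶠ z : ℕ in atTop, C ≤ (z : ℝ) :=
  tendsto_natCast_atTop_atTop.eventually_ge_atTop C

end Pool.Agent.Helper27.TripAP
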