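import Mathlib
import Pool.Agent.Helper27.TripAP.Final

/-!
# The main theorem
-/

set_option autoImplicit false

namespace Pool.Agent.Helper27.TripAP

open Finset Filter

/-- The size of the error set. -/
theorem log_F_le {z P a u : ℕ} (hz : 2 ≤ z) (hP : P ≤ 4 ^ z) (ha : a < P) (hu : u = 2 ∨ u = 4)
    (hF : a * (a + u) * (a + 6) ≠ 0) :
    Real.log ((a * (a + u) * (a + 6) : ℕ) : ℝ) ≤ 9 * z := by
  have h1 : a + 6 ≤ 4 ^ (2 * z) := by
    have h2 : 4 ^ (2 * z) = 4 ^ z * 4 ^ z := by rw [two_mul, pow_add]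
    have h3 : 4 ^ 2 ≤ 4 ^ z := Nat.pow_le_pow_right (by norm_num) hz
    have h4 : 4 ^ 2 * 4 ^ z ≤ 4 ^ z * 4 ^ z := Nat.mul_le_mul_right _ h3
    omega
  have h2 : a * (a + u) * (a + 6) ≤ 4 ^ (6 * z) := by
    have e : 4 ^ (6 * z) = 4 ^ (2 * z) * 4 ^ (2 * z) * 4 ^ (2 * z) := by
      rw [← pow_add, ← pow_add]; congr 1; ring
    rw [e]
    have : a + u ≤ 4 ^ (2 * z) := by rcases hu with rfl | rfl <;> omega
    exact Nat.mul_le_mul (Nat.mul_le_mul (by omega) this) h1
  have h3 : ((a * (a + u) * (a + 6) : ℕ) : ℝ) ≤ 4 ^ (6 * z) := by exact_mod_cast h2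
  have h4 : (0 : ℝ) < ((a * (a + u) * (a + 6) : ℕ) : ℝ) := by
    exact_mod_cast Nat.pos_of_ne_zero hF
  have h5 := Real.log_le_log h4 h3
  rw [Real.log_pow] at h5
  have h6 : Real.log 4 = 2 * Real.log 2 := by
    rw [show (4 : ℝ) = 2 ^ 2 by norm_num, Real.log_pow]; norm_num
  rw [h6] at h5
  have h7 := Real.log_two_lt_d9
  have hz0 : (0 : ℝ) ≤ z := Nat.cast_nonneg z
  push_cast at h5 ⊢
  nlinarith

theorem log_sixteen : Real.log 16 ≤ 3 := by
  have h6 : Real.log 16 = 4 * Real.log 2 := by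
    rw [show (16 : ℝ) = 2 ^ 4 by norm_num, Real.log_pow]; norm_num
  have h7 := Real.log_two_lt_d9
  rw [h6]
  linarith

theorem K_ge (s : Finset ℕ) : 1 - ∑ p ∈ s, 1 / (p : ℝ) ≤ K s := by
  have h1 := T_error s 1
  have h2 := mul_nonneg (K_nonneg s) (E_nonneg 2 s)
  have h3 : T 1 s = 1 - ∑ p ∈ s, 1 / (p : ℝ) := by
    unfold T
    rw [sum_range_succ, sum_range_one, E_zero, E_one]
    ring
  rw [h3] at h1
  have h4 : (1 + 1 : ℕ) = 2 := rfl
  rw [h4] at h1
  linarith

theorem cube_ratio {c L L' : ℝ} (hc : 0 < c) (hc1 : c ≤ 1) (hL' : L' = L - Real.log 16)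
    (h : 27 ≤ c * L) : L ^ 3 ≤ (1 + c) * L' ^ 3 ∧ 0 < L' := by
  have hL : 27 ≤ L := by
    by_contra hcon
    push Not at hcon
    rcases le_or_gt L 0 with h0 | h0
    · nlinarith
    · nlinarith
  have h16 := log_sixteen
  have hLp : 0 < L' := by rw [hL']; linarith
  refine ⟨?_, hLp⟩
  have h1 : L ≤ (1 + c / 8) * L' := by
    rw [hL']
    have h2 : (1 + c / 8) * Real.log 16 ≤ 27 / 8 := by
      have h3 : (1 + c / 8) ≤ 9 / 8 := by linarith
      have h4 : 0 ≤ Real.log 16 := Real.log_nonneg (by norm_num)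
      calc (1 + c / 8) * Real.log 16 ≤ (9 / 8) * 3 := mul_le_mul h3 h16 h4 (by norm_num)
        _ = 27 / 8 := by norm_num
    have h5 : (1 + c / 8) * (L - Real.log 16) = L + c * L / 8 - (1 + c / 8) * Real.log 16 := by ring
    rw [h5]
    linarith
  have h2 : L ^ 3 ≤ ((1 + c / 8) * L') ^ 3 := pow_le_pow_left₀ (by linarith) h1 3
  have h3 : ((1 + c / 8)) ^ 3 ≤ 1 + c := by
    have hcc : c * c ≤ c := by nlinarith
    have hccc : c * c * c ≤ c := by nlinarith [mul_pos hc hc]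
    nlinarith
  calc L ^ 3 ≤ ((1 + c / 8) * L') ^ 3 := h2
    _ = (1 + c / 8) ^ 3 * L' ^ 3 := by ring
    _ ≤ (1 + c) * L' ^ 3 := mul_le_mul_of_nonneg_right h3 (by positivity)

theorem core (A : ℕ) : ∃ c : ℝ, 0 < c ∧ ∃ k : ℕ, 1 ≤ k ∧ ∃ j₀ : ℕ, ∀ j : ℕ, j₀ ≤ j → ∀ x : ℕ,
    8 * (4 : ℝ) ^ (j * (2 * k)) ≤ Real.log x →
    Real.log x ≤ 8 * 4 ^ (2 * k) * (4 : ℝ) ^ (j * (2 * k)) →
    ∀ D : ℝ, 0 < D → ∀ u : ℕ, (u = 2 ∨ u = 4) → ¬ Good D u A c x := by
  classical
  set m : ℕ := 2 * (A + 1) with hm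
  set k : ℕ := m + 13 with hk
  set lam : ℝ := 1 / (16 * (k : ℝ)) with hlam
  have hk0 : (13 : ℝ) ≤ k := by
    have : 13 ≤ k := by omega
    exact_mod_cast this
  clear_value k m
  have hlam0 : 0 < lam := by rw [hlam]; positivity
  have hlam1 : lam ≤ 1 := by
    rw [hlam, div_le_one (by positivity)]
    linarith
  set η : ℝ := (lam / 2) ^ (m + 1) / (m + 1).factorial with hη
  have hfac : (1 : ℝ) ≤ ((m + 1).factorial : ℝ) := by
    exact_mod_cast Nat.succ_le_of_lt (Nat.factorial_pos (m + 1))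
  have hη0 : 0 < η := by rw [hη]; positivity
  have hη1 : η ≤ 1 := by
    rw [hη, div_le_one (by linarith)]
    exact (pow_le_one₀ (by linarith) (by linarith)).trans hfac
  set c : ℝ := η / 100 with hc
  have hc0 : 0 < c := by rw [hc]; positivity
  have hc1 : c ≤ 1 := by rw [hc]; linarith
  clear_value c η lam
  obtain ⟨j₁, hj₁1, hj₁⟩ := lam_bounds k (by omega)
  -- limits
  have htz : Tendsto (fun j : ℕ => 4 ^ (j * (2 * k))) atTop atTop := by
    refine tendsto_atTop_mono (fun j => ?_) tendsto_id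
    calc id j ≤ 4 ^ j := (Nat.lt_pow_self (by norm_num)).le
      _ ≤ 4 ^ (j * (2 * k)) := Nat.pow_le_pow_right (by norm_num) (Nat.le_mul_of_pos_right _ (by omega))
  have htt : Tendsto (fun j : ℕ => 4 ^ j) atTop atTop := by
    refine tendsto_atTop_mono (fun j => ?_) tendsto_id
    exact (Nat.lt_pow_self (by norm_num)).le
  set C₁ : ℝ := 8 * ((8 * 4 ^ (2 * k)) ^ A + 2 / c + 1) with hC₁
  have ev1 := htz.eventually (pow_le_two_pow C₁ (m + 1 + A))
  have ev2 := htz.eventually (log_ge (24 * 4 ^ (2 * k) * (1 + c) / c))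
  have ev3 := htz.eventually (log_ge (180 / η))
  have ev4 := htz.eventually (nat_ge ((8 * 4 ^ (2 * k)) ^ A))
  have ev5 := htz.eventually (nat_ge (27 / c))
  have ev6 := htt.eventually (nat_ge (10 / η))
  have ev7 := htt.eventually (nat_ge (32 * k * (m + 1)))
  obtain ⟨j₂, hj₂⟩ := eventually_atTop.1
    (ev1.and (ev2.and (ev3.and (ev4.and (ev5.and (ev6.and ev7))))))
  refine ⟨c, hc0, k, by omega, max j₁ j₂, ?_⟩
  intro j hj x hx1 hx2 D hD u hu hG
  have hjj1 : j₁ ≤ j := (le_max_left _ _).trans hj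
  have hjj2 : j₂ ≤ j := (le_max_right _ _).trans hj
  obtain ⟨hsl, hsu⟩ := hj₁ j hjj1
  obtain ⟨f1, f2, f3, f4, f5, f6, f7⟩ := hj₂ j hjj2
  have hj1 : 1 ≤ j := hj₁1.trans hjj1
  set t : ℕ := 4 ^ j with ht
  set z : ℕ := 4 ^ (j * (2 * k)) with hz
  set y : ℕ := 4 ^ (j * (2 * k - 1)) with hy
  set M : ℕ := t ^ (k * (2 * m + 1)) with hM
  have hzt : z = t ^ (2 * k) := by rw [hz, ht, ← pow_mul]
  have hyt : y = t ^ (2 * k - 1) := by rw [hy, ht, ← pow_mul]
  have ht4 : 4 ≤ t := by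
    rw [ht]
    calc 4 = 4 ^ 1 := by norm_num
      _ ≤ 4 ^ j := Nat.pow_le_pow_right (by norm_num) hj1
  have htk : ∀ n : ℕ, 1 ≤ n → t ≤ t ^ n := fun n hn => Nat.le_self_pow (by omega) t
  clear_value t z y M
  have hzz : (z : ℝ) = (4 : ℝ) ^ (j * (2 * k)) := by rw [hz]; push_cast; ring
  rw [← hzz] at hx1 hx2
  -- integer relations
  have e1 : z ^ m * t ^ k = M := by
    rw [hzt, hM, ← pow_mul, ← pow_add]
    congr 1
    ring
  have e2 : M ≤ z ^ (m + 1) := by
    rw [← e1, pow_succ z m]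
    apply Nat.mul_le_mul_left
    rw [hzt]
    exact Nat.pow_le_pow_right (by omega) (by omega)
  have e3 : 2 * M ≤ y ^ (m + 1) := by
    have : y ^ (m + 1) = M * t ^ 12 := by
      rw [hyt, hM, ← pow_mul, ← pow_add]
      congr 1
      have h1 : 2 * k - 1 = 2 * m + 25 := by omega
      rw [h1, hk]
      ring
    rw [this, mul_comm]
    apply Nat.mul_le_mul_left
    exact (show 2 ≤ t by omega).trans (htk 12 (by omega))
  have hzm : z ≤ z ^ m := Nat.le_self_pow (by omega) z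
  have e4 : z ^ m ≤ M := by
    rw [← e1]
    exact Nat.le_mul_of_pos_right _ (by positivity)
  have hz0 : 0 < z := by rw [hz]; positivity
  have hty : t ≤ y := by rw [hyt]; exact htk _ (by omega)
  have hyz : y ≤ z := by
    rw [hy, hz]
    exact Nat.pow_le_pow_right (by norm_num) (Nat.mul_le_mul_left _ (by omega))
  have hM1 : 1 ≤ M := by
    have : 1 ≤ z := hz0
    omega
  -- reals
  have hzR : (0 : ℝ) < z := by exact_mod_cast hz0
  have hMR : (0 : ℝ) < M := by exact_mod_cast hM1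
  have htR : (4 : ℝ) ≤ t := by exact_mod_cast ht4
  have hz1 : (1 : ℝ) ≤ z := by exact_mod_cast hz0
  have h27 : 27 ≤ c * z := by
    rw [div_le_iff₀ hc0] at f5
    linarith
  set L : ℝ := Real.log x with hL
  have hLz : (z : ℝ) ≤ L := by linarith
  have hLpos : 0 < L := lt_of_lt_of_le hzR hLz
  obtain ⟨hcube, hpos⟩ := cube_ratio (L := L) (L' := L - Real.log 16) hc0 hc1 rfl
    (h27.trans (mul_le_mul_of_nonneg_left hLz hc0.le))
  -- the sets of primes
  set S : Finset ℕ := (range (z + 1)).filter Nat.Prime with hS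
  set s : Finset ℕ := pri y z with hs
  have hSmem : ∀ p : ℕ, p ∈ S ↔ p.Prime ∧ p ≤ z := by
    intro p
    rw [hS, mem_filter, mem_range]
    constructor
    · rintro ⟨h1, h2⟩; exact ⟨h2, by omega⟩
    · rintro ⟨h1, h2⟩; exact ⟨by omega, h1⟩
  have hsmem : ∀ p : ℕ, p ∈ s ↔ p.Prime ∧ y < p ∧ p ≤ z := by
    intro p
    rw [hs, mem_pri]
    tauto
  have hPle : (∏ p ∈ S, p) ≤ 4 ^ z := primorial_le_four_pow z
  have hSp : ∀ p ∈ S, p.Prime := fun p hp => ((hSmem p).1 hp).1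
  have hP0 : 0 < ∏ p ∈ S, p :=
    Nat.pos_of_ne_zero (prod_ne_zero_iff.2 fun q hq => (hSp q hq).ne_zero)
  obtain ⟨a, haP, has, haS⟩ := exists_start S s hSp u hu
  have has' : ∀ p ∈ s, p ∣ a := by
    intro p hp
    refine has p ?_ hp
    rw [hSmem]
    rw [hsmem] at hp
    exact ⟨hp.1, hp.2.2⟩
  have h32 : 32 ≤ t := by
    have h1 : (32 : ℝ) ≤ t := by
      refine le_trans ?_ f7
      have h2 : (1 : ℝ) ≤ (m : ℝ) + 1 := by
        have : (0 : ℝ) ≤ m := Nat.cast_nonneg m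
        linarith
      have h3 : (1 : ℝ) ≤ k * ((m : ℝ) + 1) := one_le_mul_of_one_le_of_one_le (by linarith) h2
      calc (32 : ℝ) = 32 * 1 := by norm_num
        _ ≤ 32 * (k * ((m : ℝ) + 1)) := mul_le_mul_of_nonneg_left h3 (by norm_num)
        _ = _ := by ring
    exact_mod_cast h1
  have hF : a * (a + u) * (a + 6) ≠ 0 := by
    intro h
    have h2S : 2 ∈ S := (hSmem 2).2 ⟨Nat.prime_two, by omega⟩
    have h2s : 2 ∉ s := by
      rw [hsmem]
      rintro ⟨-, h1, -⟩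
      omega
    apply haS 2 h2S h2s
    rw [h]
    exact dvd_zero 2
  -- the number `R`
  clear_value S s
  set P : ℕ := ∏ p ∈ S, p with hP
  set R : ℕ := x / (8 * (M * P)) with hR
  clear_value R
  have hx0 : 0 < x := by
    rcases Nat.eq_zero_or_pos x with h | h
    · rw [h] at hL
      simp only [CharP.cast_eq_zero, Real.log_zero] at hL
      linarith
    · exact h
  have hxR : (0 : ℝ) < x := by exact_mod_cast hx0
  have hMP : 0 < 8 * (M * P) := Nat.mul_pos (by norm_num) (Nat.mul_pos hM1 hP0)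
  have hxlow : (2 : ℝ) ^ z * 4 ^ z ≤ x := by
    have h1 : Real.exp (8 * z) ≤ x := by
      rw [← Real.le_log_iff_exp_le hxR]
      exact hx1
    refine le_trans ?_ h1
    have h2 : (2 : ℝ) ≤ Real.exp 1 := by
      have := Real.exp_one_gt_d9
      linarith
    calc (2 : ℝ) ^ z * 4 ^ z = 8 ^ z := by rw [← mul_pow]; norm_num
      _ = (2 ^ 3) ^ z := by norm_num
      _ = 2 ^ (3 * z) := by rw [← pow_mul]
      _ ≤ 2 ^ (8 * z) := pow_le_pow_right₀ (by norm_num) (by omega)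
      _ ≤ (Real.exp 1) ^ (8 * z) := pow_le_pow_left₀ (by norm_num) h2 _
      _ = Real.exp (8 * z) := by
          rw [← Real.exp_nat_mul]
          congr 1
          push_cast
          ring
  have hLA : L ^ A ≤ (8 * 4 ^ (2 * k)) ^ A * z ^ A := by
    rw [← mul_pow]
    exact pow_le_pow_left₀ hLpos.le hx2 A
  have hRbig : L ^ A + 2 / c < R := by
    have h1 : x < 8 * (M * P) * (R + 1) := by
      rw [hR]
      exact Nat.lt_mul_div_succ x hMP
    have h2 : (x : ℝ) < 8 * (M * P) * (R + 1) := by exact_mod_cast h1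
    have h3 : (M : ℝ) ≤ z ^ (m + 1) := by exact_mod_cast e2
    have h4 : (P : ℝ) ≤ 4 ^ z := by exact_mod_cast hPle
    have hP0' : (0 : ℝ) < P := by exact_mod_cast hP0
    have hzA : (1 : ℝ) ≤ (z : ℝ) ^ A := one_le_pow₀ hz1
    have h5 : 8 * (L ^ A + 2 / c + 1) ≤ C₁ * z ^ A := by
      have h6 : (2 / c + 1) * 1 ≤ (2 / c + 1) * (z : ℝ) ^ A :=
        mul_le_mul_of_nonneg_left hzA (by positivity)
      have h7 : C₁ * (z : ℝ) ^ A = 8 * ((8 * 4 ^ (2 * k)) ^ A * (z : ℝ) ^ A + (2 / c + 1) * (z : ℝ) ^ A) := by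
        rw [hC₁]; ring
      rw [h7]
      linarith
    have h6 : 8 * ((M : ℝ) * P) * (L ^ A + 2 / c + 1) ≤ x := by
      calc 8 * ((M : ℝ) * P) * (L ^ A + 2 / c + 1)
          = (M * P) * (8 * (L ^ A + 2 / c + 1)) := by ring
        _ ≤ (z ^ (m + 1) * 4 ^ z) * (C₁ * z ^ A) := by
            apply mul_le_mul _ h5 (by positivity) (by positivity)
            exact mul_le_mul h3 h4 hP0'.le (by positivity)
        _ = (C₁ * z ^ (m + 1 + A)) * 4 ^ z := by rw [pow_add (z : ℝ) (m + 1) A]; ring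
        _ ≤ 2 ^ z * 4 ^ z := mul_le_mul_of_nonneg_right f1 (by positivity)
        _ ≤ x := hxlow
    have h7 : 8 * ((M : ℝ) * P) * (L ^ A + 2 / c + 1) < 8 * (M * P) * (R + 1) := lt_of_le_of_lt h6 h2
    have h8 := lt_of_mul_lt_mul_left h7 (by positivity)
    linarith
  have hLA0 : 0 ≤ L ^ A := by positivity
  have h2c : 0 < 2 / c := by positivity
  have hR0 : (0 : ℝ) < R := by linarith
  have hR1 : 1 ≤ R := by
    have : 0 < R := by exact_mod_cast hR0
    exact this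
  have hcR : 2 ≤ c * R := by
    have h1 : 2 / c ≤ R := by linarith
    rw [div_le_iff₀ hc0] at h1
    linarith
  have hMz : (z : ℝ) ≤ M := by exact_mod_cast hzm.trans e4
  have hcM : 2 ≤ c * M := by
    have : c * z ≤ c * M := mul_le_mul_of_nonneg_left hMz hc0.le
    linarith
  have hMA : L ^ A ≤ M := by
    calc L ^ A ≤ (8 * 4 ^ (2 * k)) ^ A * (z : ℝ) ^ A := hLA
      _ ≤ z * (z : ℝ) ^ A := mul_le_mul_of_nonneg_right f4 (by positivity)
      _ = (z : ℝ) ^ (A + 1) := by rw [pow_succ]; ring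
      _ ≤ (z : ℝ) ^ m := pow_le_pow_right₀ hz1 (by omega)
      _ ≤ M := by exact_mod_cast e4
  have hx8 : 8 * (M * P * R) ≤ x := by
    have h1 := Nat.mul_div_le x (8 * (M * P))
    rw [← hR] at h1
    calc 8 * (M * P * R) = 8 * (M * P) * R := by ring
      _ ≤ x := h1
  have hx16 : x ≤ 16 * (M * P * R) := by
    have h1 : x < 8 * (M * P) * (R + 1) := by
      rw [hR]
      exact Nat.lt_mul_div_succ x hMP
    have h2 : 8 * (M * P) * (R + 1) ≤ 8 * (M * P) * (2 * R) := Nat.mul_le_mul_left _ (by omega)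
    have h3 : 8 * (M * P) * (2 * R) = 16 * (M * P * R) := by ring
    omega
  have hlogz : 0 < Real.log z := lt_of_lt_of_le (by positivity) f3
  have hzL : 3 * L * (1 + c) ≤ c * (z * Real.log z) := by
    rw [div_le_iff₀ hc0] at f2
    calc 3 * L * (1 + c) ≤ 3 * (8 * 4 ^ (2 * k) * z) * (1 + c) := by
          apply mul_le_mul_of_nonneg_right _ (by linarith)
          linarith
      _ = (24 * 4 ^ (2 * k) * (1 + c)) * z := by ring
      _ ≤ (Real.log z * c) * z := mul_le_mul_of_nonneg_right f2 hzR.le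
      _ = _ := by ring
  -- the matrix
  let X : Data :=
    { D := D, u := u, A := A, x := x, c := c, ε := c, L := L, L' := L - Real.log 16, y := y, z := z,
      a := a, M := M, R := R, S := S, s := s, hD := hD, hu := hu, hc0 := hc0.le, hc1 := hc1,
      hε := hc0, hL := rfl, hL' := rfl, hpos := hpos, hy := by omega, hz := hyz, hS := hSmem,
      hs := hsmem, haP := haP, has := has', haS := haS, hM1 := hM1, hR1 := hR1, hx1 := hx8,
      hx2 := hx16, hMA := hMA, hRA := by linarith, hzL := hzL, hG := hG }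
  have hcol : 0 ≤ X.colX := by
    have h1 := col_lower hc0 hR0 hLpos hpos hcube hcR
    refine le_trans ?_ h1
    have h2 := kappa_pos hc0 (by rw [hc]; linarith)
    positivity
  have hdc := X.double_count hcol
  -- the sieve
  have hsieve := sieve_lower s (fun p hp => ((hsmem p).1 hp).1) m M y z (by rw [hm]; exact even_two_mul _)
    (fun p hp => ((hsmem p).1 hp).2) hz0 e3
  have hE : η ≤ E (m + 1) s := by
    have hy0 : (0 : ℝ) < y := by
      have : 0 < y := by omega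
      exact_mod_cast this
    rw [hη]
    refine E_lower s (1 / (y : ℝ)) lam ?_ (m + 1) (by rw [hlam]; exact hsl) hlam0.le ?_ (by positivity)
    · intro p hp
      apply one_div_le_one_div_of_le hy0
      exact_mod_cast ((hsmem p).1 hp).2.1.le
    · rw [hlam, mul_one_div, div_le_iff₀ hy0]
      have h1 : (32 : ℝ) * k * (m + 1) ≤ y := f7.trans (by exact_mod_cast hty)
      have h2 : 1 / (16 * (k : ℝ)) / 2 * y = y / (32 * k) := by
        field_simp
        norm_num
      rw [h2, le_div_iff₀ (by positivity)]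
      push_cast
      linarith
  have hK : 5 / 6 ≤ K s := by
    refine le_trans ?_ (K_ge s)
    have h1 : (4 : ℝ) / ((2 * k - 1 : ℕ) : ℝ) ≤ 1 / 6 := by
      have h2 : (25 : ℝ) ≤ ((2 * k - 1 : ℕ) : ℝ) := by
        have : 25 ≤ 2 * k - 1 := by omega
        exact_mod_cast this
      rw [div_le_div_iff₀ (by linarith) (by norm_num)]
      linarith
    linarith
  -- the bad rows
  set T := ((a * (a + u) * (a + 6)).primeFactors.filter (fun p => z < p)) with hT
  have hbad := bad_bound (M := M) (z := z) hz0 hF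
  rw [← hT] at hbad
  have hlogF := log_F_le (z := z) (by omega) hPle haP hu hF
  have hcard := card_le_log (z := z) (by omega) hF T (filter_subset _ _) (fun p hp => by
    rw [hT, mem_filter] at hp
    exact hp.2)
  have hka : (T.card : ℝ) / z ≤ η / 20 := by
    have h1 : (T.card : ℝ) * Real.log z ≤ 9 * z := hcard.trans hlogF
    have h2 : 180 ≤ η * Real.log z := by
      rw [div_le_iff₀ hη0] at f3
      linarith
    rw [div_le_div_iff₀ hzR (by norm_num)]
    have h3 : ((T.card : ℝ) * 20) * Real.log z ≤ (η * z) * Real.log z := by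
      calc ((T.card : ℝ) * 20) * Real.log z = 20 * ((T.card : ℝ) * Real.log z) := by ring
        _ ≤ 20 * (9 * z) := by linarith
        _ = 180 * z := by ring
        _ ≤ (η * Real.log z) * z := mul_le_mul_of_nonneg_right h2 hzR.le
        _ = _ := by ring
    exact le_of_mul_le_mul_right h3 hlogz
  have hbad2 : (T.card : ℝ) * ((M : ℝ) / z + 1) ≤ M * (η / 10) := by
    have h1 : (1 : ℝ) ≤ M / z := by rw [le_div_iff₀ hzR]; linarith
    calc (T.card : ℝ) * ((M : ℝ) / z + 1) ≤ (T.card : ℝ) * (M / z + M / z) :=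
          mul_le_mul_of_nonneg_left (by linarith) (Nat.cast_nonneg _)
      _ = 2 * M * ((T.card : ℝ) / z) := by ring
      _ ≤ 2 * M * (η / 20) := mul_le_mul_of_nonneg_left hka (by positivity)
      _ = _ := by ring
  have hzmM : (z : ℝ) ^ m ≤ M * (η / 10) := by
    have h1 : (z : ℝ) ^ m * t ^ k = M := by exact_mod_cast e1
    have h2 : (10 : ℝ) ≤ η * t ^ k := by
      rw [div_le_iff₀ hη0] at f6
      have h3 : (t : ℝ) ≤ t ^ k := by exact_mod_cast htk k (by omega)
      calc (10 : ℝ) ≤ t * η := f6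
        _ = η * t := mul_comm _ _
        _ ≤ η * t ^ k := mul_le_mul_of_nonneg_left h3 hη0.le
    have h3 : (0 : ℝ) < (z : ℝ) ^ m := by positivity
    rw [← h1]
    calc (z : ℝ) ^ m = z ^ m * (10 / 10) := by norm_num
      _ ≤ z ^ m * (η * t ^ k / 10) := by
          apply mul_le_mul_of_nonneg_left _ h3.le
          exact div_le_div_of_nonneg_right h2 (by norm_num)
      _ = _ := by ring
  refine final_contra (G := (((Ioc M (2 * M)).filter (fun l => ∀ p ∈ s, ¬ p ∣ l)).card : ℝ) -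
      (((Ioc M (2 * M)).filter (fun l => ∃ p, p.Prime ∧ z < p ∧ p ∣ l ∧
        p ∣ a * (a + u) * (a + 6))).card : ℝ)) hη0 hη1 hc (lt_of_lt_of_le (by norm_num) hK) hMR hR0
        hLpos hpos hcube hcM hcR ?_ hdc
  have h1 : (M : ℝ) * K s * (1 + η) ≤ M * K s * (1 + E (m + 1) s) := by
    apply mul_le_mul_of_nonneg_left (by linarith)
    exact mul_nonneg hMR.le (by linarith)
  have h2 : (M : ℝ) * (5 / 6) ≤ M * K s := mul_le_mul_of_nonneg_left hK hMR.le
  have h3 : (M : ℝ) * (5 / 6) * (η / 2) ≤ M * K s * (η / 2) :=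
    mul_le_mul_of_nonneg_right h2 (by positivity)
  have h4 : 0 < (M : ℝ) * η := by positivity
  have h5 : (M : ℝ) * K s * (1 + η) = M * K s * (1 + η / 2) + M * K s * (η / 2) := by ring
  have h6 : (M : ℝ) * (5 / 6) * (η / 2) = 5 / 12 * (M * η) := by ring
  have h7 : (M : ℝ) * (η / 10) = 1 / 10 * (M * η) := by ring
  linarith

/-- The prime triplet conjecture cannot hold uniformly in progressions. -/
theorem main (A : ℕ) : ∃ c : ℝ, 0 < c ∧ ∃ x₀ : ℕ, ∀ x : ℕ, x₀ ≤ x → ∀ D : ℝ, 0 < D →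
    ∀ u : ℕ, (u = 2 ∨ u = 4) → ¬ Good D u A c x := by
  obtain ⟨c, hc, k, hk, j₀, H⟩ := core A
  refine ⟨c, hc, ⌈Real.exp (8 * (4 ^ (2 * k)) ^ (j₀ + 1))⌉₊, ?_⟩
  intro x hx D hD u hu
  have hx1 : Real.exp (8 * (4 ^ (2 * k)) ^ (j₀ + 1)) ≤ x := Nat.ceil_le.1 hx
  have hx0 : (0 : ℝ) < x := lt_of_lt_of_le (Real.exp_pos _) hx1
  have hL : 8 * ((4 : ℝ) ^ (2 * k)) ^ (j₀ + 1) ≤ Real.log x := by
    rw [Real.le_log_iff_exp_le hx0]
    exact hx1
  set B : ℕ := 4 ^ (2 * k) with hB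
  have hB1 : 1 < B := by
    rw [hB]
    exact Nat.one_lt_pow (by omega) (by norm_num)
  set N : ℕ := ⌊Real.log x / 8⌋₊ with hN
  have hBR : (B : ℝ) = 4 ^ (2 * k) := by rw [hB]; push_cast; ring
  have hlog8 : (B : ℝ) ^ (j₀ + 1) ≤ Real.log x / 8 := by
    rw [hBR]; linarith
  have hNpos : B ^ (j₀ + 1) ≤ N := by
    rw [hN]
    apply Nat.le_floor
    push_cast
    exact hlog8
  have hN0 : N ≠ 0 := by
    have : 0 < B ^ (j₀ + 1) := by positivity
    omega
  set j : ℕ := Nat.log B N with hj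
  have hjj : j₀ ≤ j := by
    have : j₀ + 1 ≤ j := (Nat.le_log_iff_pow_le hB1 hN0).2 hNpos
    omega
  have h1 : B ^ j ≤ N := Nat.pow_log_le_self B hN0
  have h2 : N < B ^ (j + 1) := Nat.lt_pow_succ_log_self hB1 N
  have hlogpos : 0 ≤ Real.log x / 8 := le_trans (by positivity) hlog8
  have h3 : (N : ℝ) ≤ Real.log x / 8 := Nat.floor_le hlogpos
  have h4 : Real.log x / 8 < N + 1 := Nat.lt_floor_add_one _
  have h5 : (4 : ℝ) ^ (j * (2 * k)) = (B : ℝ) ^ j := by
    rw [hBR, ← pow_mul]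
    congr 1
    ring
  refine H j hjj x ?_ ?_ D hD u hu
  · rw [h5]
    have h6 : (B : ℝ) ^ j ≤ N := by exact_mod_cast h1
    linarith
  · rw [h5, ← hBR]
    have h6 : ((N : ℝ)) + 1 ≤ (B : ℝ) ^ (j + 1) := by exact_mod_cast h2
    rw [pow_succ] at h6
    nlinarith

end Pool.Agent.Helper27.TripAP
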